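import Mathlib

set_option autoImplicit false

/-! Dyadic blocks. -/

open Finset

namespace Pool.Agent.Helper24K9.LI

/-- sums with the weight `1 / j` over dyadic blocks -/
lemma blocks (p : ℕ → Prop) [DecidablePred p] (f : ℕ → ℝ) (hf : ∀ j, 0 ≤ f j) (B : ℝ) (J : ℕ) (hJ : 0 < J) (U : ℕ)
    (h : ∀ u < U, ∑ j ∈ (Ioc (2 ^ u * J) (2 * (2 ^ u * J))).filter p, f j ≤ B * (2 ^ u * J : ℕ)) :
    ∑ j ∈ (Ioc J (2 ^ U * J)).filter p, 1 / (j : ℝ) * f j ≤ B * U := by
  induction U with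
  | zero => simp
  | succ U ih =>
    have h1 := ih (fun u hu => h u (by omega))
    have hs : (Ioc J (2 ^ (U + 1) * J)).filter p =
        (Ioc J (2 ^ U * J)).filter p ∪ (Ioc (2 ^ U * J) (2 * (2 ^ U * J))).filter p := by
      rw [← filter_union]
      congr 1
      ext j
      simp only [mem_union, mem_Ioc]
      have h2 : J ≤ 2 ^ U * J := Nat.le_mul_of_pos_left _ (by positivity)
      have h3 : 2 ^ (U + 1) * J = 2 * (2 ^ U * J) := by ring
      omega
    have hd : Disjoint ((Ioc J (2 ^ U * J)).filter p) ((Ioc (2 ^ U * J) (2 * (2 ^ U * J))).filter p) := by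
      rw [Finset.disjoint_left]
      intro j h2 h3
      rw [mem_filter, mem_Ioc] at h2 h3
      omega
    rw [hs, sum_union hd]
    have h2 := h U (by omega)
    have hD : (0:ℝ) < (2 ^ U * J : ℕ) := by
      have : 0 < 2 ^ U * J := by positivity
      exact_mod_cast this
    have h3 : ∑ j ∈ (Ioc (2 ^ U * J) (2 * (2 ^ U * J))).filter p, 1 / (j : ℝ) * f j ≤ B := by
      calc ∑ j ∈ (Ioc (2 ^ U * J) (2 * (2 ^ U * J))).filter p, 1 / (j : ℝ) * f j
          ≤ ∑ j ∈ (Ioc (2 ^ U * J) (2 * (2 ^ U * J))).filter p, 1 / ((2 ^ U * J : ℕ) : ℝ) * f j := by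
            apply sum_le_sum
            intro j hj
            rw [mem_filter, mem_Ioc] at hj
            apply mul_le_mul_of_nonneg_right _ (hf j)
            apply one_div_le_one_div_of_le hD
            exact_mod_cast hj.1.1.le
        _ = 1 / ((2 ^ U * J : ℕ) : ℝ) * ∑ j ∈ (Ioc (2 ^ U * J) (2 * (2 ^ U * J))).filter p, f j := by rw [mul_sum]
        _ ≤ 1 / ((2 ^ U * J : ℕ) : ℝ) * (B * (2 ^ U * J : ℕ)) := by gcongr
        _ = B := by field_simp
    push_cast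
    linarith

/-- weighted Cauchy-Schwarz with a threshold -/
lemma threshold (s : Finset ℕ) (w F : ℕ → ℝ) (hw : ∀ j ∈ s, 0 ≤ w j) (hF : ∀ j ∈ s, 0 ≤ F j) (S₁ S₂ S₀ τ : ℝ)
    (hτ : 0 ≤ τ) (h0 : ∑ j ∈ s, w j ≤ S₀) (h1 : S₁ ≤ ∑ j ∈ s, w j * F j) (h2 : ∑ j ∈ s, w j * F j ^ 2 ≤ S₂)
    (h3 : τ * S₀ ≤ S₁ / 2) (hS₁ : 0 ≤ S₁) :
    (S₁ / 2) ^ 2 ≤ (∑ j ∈ s.filter (fun j => τ ≤ F j), w j) * S₂ := by
  classical
  set E := s.filter (fun j => τ ≤ F j) with hE
  have h4 := sum_filter_add_sum_filter_not s (fun j => τ ≤ F j) (fun j => w j * F j)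
  have h5 : ∑ j ∈ s.filter (fun j => ¬ τ ≤ F j), w j * F j ≤ τ * S₀ := by
    calc ∑ j ∈ s.filter (fun j => ¬ τ ≤ F j), w j * F j ≤ ∑ j ∈ s.filter (fun j => ¬ τ ≤ F j), τ * w j := by
          apply sum_le_sum
          intro j hj
          rw [mem_filter, not_le] at hj
          rw [mul_comm]
          exact mul_le_mul_of_nonneg_right hj.2.le (hw j hj.1)
      _ = τ * ∑ j ∈ s.filter (fun j => ¬ τ ≤ F j), w j := by rw [mul_sum]
      _ ≤ τ * S₀ := by
          apply mul_le_mul_of_nonneg_left _ hτ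
          refine le_trans ?_ h0
          apply sum_le_sum_of_subset_of_nonneg (filter_subset _ _)
          intro j hj _
          exact hw j hj
  have h6 : S₁ / 2 ≤ ∑ j ∈ E, w j * F j := by
    rw [← hE] at h4
    linarith
  have h7 : (∑ j ∈ E, w j * F j) ^ 2 ≤ (∑ j ∈ E, w j) * ∑ j ∈ E, w j * F j ^ 2 := by
    apply sum_sq_le_sum_mul_sum_of_sq_eq_mul
    · intro j hj
      exact hw j (mem_filter.1 hj).1
    · intro j hj
      exact mul_nonneg (hw j (mem_filter.1 hj).1) (sq_nonneg _)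
    · intro j _
      ring
  have h8 : ∑ j ∈ E, w j * F j ^ 2 ≤ S₂ := by
    refine le_trans ?_ h2
    apply sum_le_sum_of_subset_of_nonneg (filter_subset _ _)
    intro j hj _
    exact mul_nonneg (hw j hj) (sq_nonneg _)
  have h9 : 0 ≤ ∑ j ∈ E, w j := sum_nonneg fun j hj => hw j (mem_filter.1 hj).1
  calc (S₁ / 2) ^ 2 ≤ (∑ j ∈ E, w j * F j) ^ 2 := pow_le_pow_left₀ (by linarith) h6 2
    _ ≤ _ := h7
    _ ≤ _ := mul_le_mul_of_nonneg_left h8 h9

end Pool.Agent.Helper24K9.LI
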