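import Mathlib
import Pool.Agent.Helper24K9.EP.Mo
import Pool.Agent.W218.HF.Count
import Pool.Agent.H373R2.BH.Local

set_option autoImplicit false

/-! Classes modulo a product of small primes; `n / φ(n)` for numbers of moderate size. -/

open Finset Filter Topology

namespace Pool.Agent.Helper24K9.LI

open Pool.Agent.Erdos456 Pool.Agent.Erdos456.Mert Pool.Agent.W218.HF Pool.Agent.Helper24K9.EL Pool.Agent.Helper24K9.EP

/-- `∏ p` -/
def PQ (Q : Finset ℕ) : ℕ := ∏ p ∈ Q, p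

/-- `∏ (1 - 1 / p)` -/
noncomputable def WQ (Q : Finset ℕ) : ℝ := ∏ p ∈ Q, (1 - 1 / (p : ℝ))

lemma PQ_pos {Q : Finset ℕ} (hQ : ∀ p ∈ Q, p.Prime) : 0 < PQ Q := prod_pos fun p hp => (hQ p hp).pos

lemma WQ_pos {Q : Finset ℕ} (hQ : ∀ p ∈ Q, p.Prime) : 0 < WQ Q := prod_pos fun p hp => one_sub_pos (hQ p hp)

lemma WQ_le_one {Q : Finset ℕ} (hQ : ∀ p ∈ Q, p.Prime) : WQ Q ≤ 1 := by
  apply prod_le_one
  · intro p hp; exact (one_sub_pos (hQ p hp)).le
  · intro p _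
    have : (0:ℝ) ≤ 1 / (p:ℝ) := by positivity
    linarith

lemma GG_le_W (A : ℝ) (hA : 0 ≤ A) {m y : ℕ} (hm : 0 < m) (hy : 1 ≤ y) (h : (m : ℝ) ≤ Real.exp (A * y)) :
    GG m ≤ Real.exp (3 / 2 * A) / Wz y := by
  have h1 := GG_le_small' A hA hm hy h
  refine h1.trans ?_
  rw [div_eq_mul_inv]
  apply mul_le_mul_of_nonneg_left _ (Real.exp_pos _).le
  have e : (Wz y)⁻¹ = ∏ p ∈ PP y, (1 - (p : ℝ)⁻¹)⁻¹ := by
    unfold Wz PP
    rw [← prod_inv_distrib]
    apply prod_congr rfl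
    intro p _
    rw [one_div]
  rw [e]
  apply prod_le_prod_of_subset_of_one_le
  · exact filter_subset _ _
  · intro p hp
    rw [mem_filter, PP, mem_filter] at hp
    exact zero_le_one.trans (factor_ge_one hp.1.2)
  · intro p hp _
    rw [PP, mem_filter] at hp
    exact factor_ge_one hp.2

lemma W_le_GG {Q : Finset ℕ} (hQ : ∀ p ∈ Q, p.Prime) {q : ℕ} (hq : 1 ≤ q) (h : PQ Q ∣ q) : 1 / WQ Q ≤ GG q := by
  have h1 := GG_mono_dvd hq h
  refine le_trans (le_of_eq ?_) h1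
  have hP : 0 < PQ Q := PQ_pos hQ
  rw [GG_eq_prod hP]
  have e : (PQ Q).primeFactors = Q := by
    unfold PQ
    exact Nat.primeFactors_prod hQ
  rw [e]
  unfold WQ
  rw [one_div, ← prod_inv_distrib]
  apply prod_congr rfl
  intro p _
  rw [one_div]

/-- the number of the classes in which `k g + h` has no prime factor in `Q` -/
lemma class_count (Q : Finset ℕ) (hQp : ∀ p ∈ Q, p.Prime) (g h : ℤ) (hgh : IsCoprime g h) : (PQ Q : ℝ) * WQ Q ≤
    (((range (PQ Q)).filter (fun r : ℕ => ∀ p ∈ Q, ¬ (p : ℤ) ∣ (r : ℤ) * g + h)).card : ℝ) := by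
  classical
  have h1 := Pool.Agent.H373R2.BH.crt_count Q hQp (fun p r => ¬ (p : ℤ) ∣ (r : ℤ) * g + h)
  have h2 : (range (PQ Q)).filter (fun r : ℕ => ∀ p ∈ Q, ¬ (p : ℤ) ∣ (r : ℤ) * g + h) =
      (range (∏ p ∈ Q, p)).filter (fun r => ∀ p ∈ Q, ¬ (p : ℤ) ∣ ((r % p : ℕ) : ℤ) * g + h) := by
    have e : PQ Q = ∏ p ∈ Q, p := rfl
    rw [e]
    apply filter_congr
    intro r _
    have key : ∀ p : ℕ, (p : ℤ) ∣ ((r % p : ℕ) : ℤ) * g + h ↔ (p : ℤ) ∣ (r : ℤ) * g + h := by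
      intro p
      have e1 : (r : ℤ) * g + h = (((r % p : ℕ) : ℤ) * g + h) + p * ((r / p : ℕ) * g) := by
        have : (r : ℤ) = p * (r / p : ℕ) + (r % p : ℕ) := by exact_mod_cast (Nat.div_add_mod r p).symm
        rw [this]; ring_nf
        try simp [Nat.mod_mod]
      rw [e1]
      exact (dvd_add_left (Dvd.intro _ rfl)).symm
    constructor
    · intro h3 p hp
      rw [key]
      exact h3 p hp
    · intro h3 p hp
      have := h3 p hp
      rwa [key] at this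
  rw [h2, h1]
  have h3 : (PQ Q : ℝ) * WQ Q = ∏ p ∈ Q, ((p : ℝ) - 1) := by
    unfold PQ WQ
    push_cast
    rw [← prod_mul_distrib]
    apply prod_congr rfl
    intro p hp
    have : (p:ℝ) ≠ 0 := by exact_mod_cast (hQp p hp).ne_zero
    field_simp
  rw [h3]
  push_cast
  apply Finset.prod_le_prod
  · intro p hp
    have : (1:ℝ) < p := by exact_mod_cast (hQp p hp).one_lt
    linarith
  · intro p hp
    have hpp := hQp p hp
    have h4 := card_filter_add_card_filter_not (s := range p) (fun r : ℕ => (p : ℤ) ∣ (r : ℤ) * g + h)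
    rw [card_range] at h4
    have h5 : ((range p).filter (fun r : ℕ => (p : ℤ) ∣ (r : ℤ) * g + h)).card ≤ 1 := by
      rw [card_le_one]
      intro r hr s hs
      rw [mem_filter, mem_range] at hr hs
      have h6 : (p : ℤ) ∣ ((r : ℤ) - s) * g := by
        have := dvd_sub hr.2 hs.2
        have e : (r : ℤ) * g + h - ((s : ℤ) * g + h) = ((r : ℤ) - s) * g := by ring
        rwa [e] at this
      rcases (Nat.prime_iff_prime_int.1 hpp).dvd_or_dvd h6 with h7 | h7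
      · have h8 : s ≡ r [MOD p] := (Nat.modEq_iff_dvd).2 h7
        unfold Nat.ModEq at h8
        rw [Nat.mod_eq_of_lt hr.1, Nat.mod_eq_of_lt hs.1] at h8
        exact h8.symm
      · exfalso
        have h8 : (p : ℤ) ∣ h := (dvd_add_right (h7.mul_left _)).1 hr.2
        have h9 := hgh.isUnit_of_dvd' h7 h8
        rw [Int.isUnit_iff] at h9
        have := hpp.two_le
        omega
    have h6 : (((range p).filter (fun r : ℕ => (p : ℤ) ∣ (r : ℤ) * g + h)).card : ℝ) ≤ 1 := by exact_mod_cast h5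
    have h7 : (((range p).filter (fun r : ℕ => (p : ℤ) ∣ (r : ℤ) * g + h)).card : ℝ) +
        (((range p).filter (fun r : ℕ => ¬ (p : ℤ) ∣ (r : ℤ) * g + h)).card : ℝ) = p := by exact_mod_cast h4
    linarith

lemma log_one_sub (u : ℝ) (hu : 0 ≤ u) (hu2 : u ≤ 1 / 2) : |Real.log (1 - u) + u| ≤ 2 * u ^ 2 := by
  have h3 := Real.abs_log_sub_add_sum_range_le (show |u| < 1 by rw [abs_of_nonneg hu]; linarith) 1
  simp only [range_one, sum_singleton, zero_add, pow_one, Nat.cast_zero, div_one] at h3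
  rw [abs_of_nonneg hu] at h3
  rw [add_comm]
  refine h3.trans ?_
  rw [div_le_iff₀ (by linarith)]
  have h4 := mul_nonneg (sq_nonneg u) (show 0 ≤ 1 - 2 * u by linarith)
  have e : u ^ (1 + 1) = u ^ 2 := by norm_num
  rw [e]
  nlinarith

/-- Mertens -/
lemma Wz_lower : ∃ c : ℝ, 0 < c ∧ ∀ y : ℕ, 3 ≤ y → c / Real.log y ≤ Wz y := by
  obtain ⟨C, hC⟩ := mertens_inv
  refine ⟨Real.exp (-(C + 2)), Real.exp_pos _, fun y hy => ?_⟩
  have h1 := (abs_le.1 (hC y hy)).2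
  have hy3 : (3:ℝ) ≤ y := by exact_mod_cast hy
  have hl0 : 0 < Real.log y := Real.log_pos (by linarith)
  set Q := (Icc 1 y).filter Nat.Prime with hQ
  have hQp : ∀ q ∈ Q, q.Prime := fun q hq => (mem_filter.1 hq).2
  have h2 : ∀ p ∈ Q, -(1 / (p:ℝ)) - 2 * ((p : ℝ) ^ 2)⁻¹ ≤ Real.log (1 - 1 / (p : ℝ)) := by
    intro p hp
    have hp2 : (2:ℝ) ≤ p := by exact_mod_cast (hQp p hp).two_le
    have h3 := log_one_sub (1 / (p:ℝ)) (by positivity) (one_div_le_one_div_of_le (by norm_num) hp2)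
    have h4 := (abs_le.1 h3).1
    rw [div_pow, one_pow, one_div ((p:ℝ)^2)] at h4
    linarith
  have h3 : ∑ p ∈ Q, ((p : ℝ) ^ 2)⁻¹ ≤ 1 := by
    have h4 : Q ⊆ Ioc 1 y := by
      intro p hp
      rw [mem_Ioc]
      have h5 := mem_filter.1 hp
      exact ⟨h5.2.one_lt, (mem_Icc.1 h5.1).2⟩
    refine (sum_le_sum_of_subset_of_nonneg h4 (fun _ _ _ => by positivity)).trans ?_
    have h5 := sum_Ioc_inv_sq_le_sub (α := ℝ) (k := 1) (n := y) one_ne_zero (by omega)
    refine h5.trans ?_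
    have : (0:ℝ) ≤ (y:ℝ)⁻¹ := by positivity
    simp only [Nat.cast_one, inv_one]
    linarith
  have h4 : -(Real.log (Real.log y) + C) - 2 ≤ Real.log (Wz y) := by
    unfold Wz
    rw [Real.log_prod (fun p hp => (one_sub_pos (hQp p hp)).ne')]
    refine le_trans ?_ (sum_le_sum h2)
    rw [sum_sub_distrib, sum_neg_distrib, ← mul_sum]
    linarith
  have h5 := Real.exp_le_exp.2 h4
  rw [Real.exp_log (Wz_pos y)] at h5
  refine le_trans (le_of_eq ?_) h5
  have e : -(Real.log (Real.log y) + C) - 2 = -(C + 2) - Real.log (Real.log y) := by ring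
  rw [e, Real.exp_sub, Real.exp_log hl0]

/-- the primes `≤ y` other than `r` -/
def QQ (y r : ℕ) : Finset ℕ := ((Icc 1 y).filter Nat.Prime).erase r

lemma QQ_prime (y r : ℕ) : ∀ p ∈ QQ y r, p.Prime := fun p hp => (mem_filter.1 (mem_of_mem_erase hp)).2

lemma QQ_le (y r : ℕ) : ∀ p ∈ QQ y r, p ≤ y := fun p hp => (mem_Icc.1 (mem_filter.1 (mem_of_mem_erase hp)).1).2

lemma PQ_QQ_le (y r : ℕ) : PQ (QQ y r) ≤ 4 ^ y := by
  have h1 : PQ (QQ y r) ≤ ∏ p ∈ (Icc 1 y).filter Nat.Prime, p := by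
    unfold PQ QQ
    apply prod_le_prod_of_subset_of_one_le' (erase_subset _ _)
    intro p hp _
    exact (mem_filter.1 hp).2.one_lt.le
  refine h1.trans (le_trans (le_of_eq ?_) (primorial_le_four_pow y))
  unfold primorial
  apply prod_congr _ (fun _ _ => rfl)
  ext p
  simp only [mem_filter, mem_Icc, mem_range]
  constructor
  · rintro ⟨⟨_, h1⟩, h2⟩; exact ⟨by omega, h2⟩
  · rintro ⟨h1, h2⟩; exact ⟨⟨h2.one_lt.le, by omega⟩, h2⟩

lemma not_dvd_PQ {y r : ℕ} (hr : r.Prime) : ¬ r ∣ PQ (QQ y r) := by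
  intro h
  unfold PQ at h
  obtain ⟨p, hp, hrp⟩ := (hr.prime.dvd_finset_prod_iff _).1 h
  have h1 := (Nat.prime_dvd_prime_iff_eq hr (QQ_prime y r p hp)).1 hrp
  rw [← h1] at hp
  exact (notMem_erase r _) hp

lemma WQ_QQ_ge (y r : ℕ) : Wz y ≤ WQ (QQ y r) := by
  unfold Wz WQ QQ
  apply prod_le_prod_of_subset_of_le_one (erase_subset _ _)
  · intro p hp
    exact (one_sub_pos (mem_filter.1 hp).2).le
  · intro p hp _
    have : (0:ℝ) ≤ 1 / (p:ℝ) := by positivity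
    linarith

lemma WQ_QQ_le (y r : ℕ) (hr : r.Prime) : WQ (QQ y r) ≤ 2 * Wz y := by
  by_cases h : r ∈ (Icc 1 y).filter Nat.Prime
  · have h1 := mul_prod_erase _ (fun p : ℕ => (1 - 1 / (p : ℝ))) h
    unfold Wz WQ QQ
    rw [← h1]
    have h2 : (1:ℝ) / 2 ≤ 1 - 1 / (r:ℝ) := by
      have h3 : (2:ℝ) ≤ r := by exact_mod_cast hr.two_le
      have : 1 / (r : ℝ) ≤ 1 / 2 := one_div_le_one_div_of_le (by norm_num) h3
      linarith
    have h3 : 0 < ∏ p ∈ ((Icc 1 y).filter Nat.Prime).erase r, (1 - 1 / (p : ℝ)) :=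
      prod_pos fun p hp => one_sub_pos (mem_filter.1 (mem_of_mem_erase hp)).2
    nlinarith
  · unfold WQ QQ
    rw [erase_eq_of_notMem h]
    have := Wz_pos y
    unfold Wz at this ⊢
    linarith

end Pool.Agent.Helper24K9.LI
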