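import Mathlib
import Pool.Agent.Helper24K9.LI.Cc
import Pool.Agent.Helper24K9.LI.Bl
import Pool.Agent.Y353.PS.Page

set_option autoImplicit false

/-! Second moment of the number of prime values of a family of linear forms; residue classes. -/

open Finset

namespace Pool.Agent.Helper24K9.LI

open Pool.Agent.Erdos456 Pool.Agent.Erdos456.Mert Pool.Agent.W218.HF

/-- pairs of linear forms -/
theorem pairs : ∃ C : ℝ, 0 < C ∧ ∀ (N : ℕ) (I : Finset ℕ) (q e : ℕ → ℕ) (Γ : ℝ), 2 ≤ N →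
    (∀ i ∈ I, 1 ≤ q i ∧ (q i).Coprime (e i) ∧ GG (q i) ≤ Γ) →
    (∀ i ∈ I, ∀ j ∈ I, i ≠ j → q i * e j ≠ q j * e i ∧
      GG (q i * q j * (((q i * e j : ℕ) : ℤ) - ((q j * e i : ℕ) : ℤ)).natAbs) ≤ Γ) →
    ∑ n ∈ Icc 1 N, ((I.filter (fun i => (q i * n + e i).Prime)).card : ℝ) ^ 2 ≤
      20 * (I.card * Γ) * (N / Real.log N) + C * (I.card * Γ) ^ 2 * (N / Real.log N ^ 2) := by
  classical
  obtain ⟨C₃, hC₃, hsv⟩ := sieve_two'
  refine ⟨C₃, hC₃, fun N I q e Γ hN hI hp => ?_⟩
  have hN2 : (2:ℝ) ≤ N := by exact_mod_cast hN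
  have hL0 : 0 < Real.log N := Real.log_pos (by linarith)
  set L : ℝ := Real.log N with hL
  rcases I.eq_empty_or_nonempty with hI0 | ⟨i₀, hi₀⟩
  · rw [hI0]; simp
  have hΓ0 : 0 ≤ Γ := (GG_nonneg _).trans (hI i₀ hi₀).2.2
  have h1 : ∑ n ∈ Icc 1 N, ((I.filter (fun i => (q i * n + e i).Prime)).card : ℝ) ^ 2 = ∑ i ∈ I, ∑ j ∈ I,
      (((Icc 1 N).filter (fun n => (q i * n + e i).Prime ∧ (q j * n + e j).Prime)).card : ℝ) := by
    have h2 : ∀ n ∈ Icc 1 N, ((I.filter (fun i => (q i * n + e i).Prime)).card : ℝ) ^ 2 = ∑ i ∈ I, ∑ j ∈ I,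
        (if (q i * n + e i).Prime ∧ (q j * n + e j).Prime then (1 : ℝ) else 0) := by
      intro n _
      simp only [card_filter]
      push_cast
      rw [sq, sum_mul_sum]
      apply sum_congr rfl
      intro i _
      apply sum_congr rfl
      intro j _
      by_cases h4 : (q i * n + e i).Prime <;> by_cases h5 : (q j * n + e j).Prime <;> simp [h4, h5]
    rw [sum_congr rfl h2, sum_comm]
    apply sum_congr rfl
    intro i _
    rw [sum_comm]
    apply sum_congr rfl
    intro j _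
    rw [card_filter]
    push_cast
    rfl
  rw [h1]
  have h2 : ∀ i ∈ I, ∀ j ∈ I,
      (((Icc 1 N).filter (fun n => (q i * n + e i).Prime ∧ (q j * n + e j).Prime)).card : ℝ) ≤
      (if i = j then 20 * Γ * (N / L) else 0) + C₃ * Γ ^ 2 * N / L ^ 2 := by
    intro i hi j hj
    by_cases hij : i = j
    · subst hij
      rw [if_pos rfl]
      have h3 := one_form (t := q i) (e := e i) (N := N) (hI i hi).1 hN
      simp only [and_self]
      have h4 : 20 * GG (q i) * (N / Real.log N) ≤ 20 * Γ * (N / L) := by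
        have := (hI i hi).2.2
        rw [← hL]
        gcongr
      have h5 : 0 ≤ C₃ * Γ ^ 2 * N / L ^ 2 := by positivity
      linarith
    · rw [if_neg hij, zero_add]
      obtain ⟨h6, h7⟩ := hp i hi j hj hij
      refine (hsv (q i) (e i) (q j) (e j) N (hI i hi).1 (hI j hj).1 (hI i hi).2.1 (hI j hj).2.1
        h6 hN).trans ?_
      have h4 := GG_nonneg (q i * q j * (((q i * e j : ℕ) : ℤ) - ((q j * e i : ℕ) : ℤ)).natAbs)
      rw [← hL]
      gcongr
  refine (sum_le_sum fun i hi => sum_le_sum fun j hj => h2 i hi j hj).trans ?_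
  simp only [sum_add_distrib, sum_ite_eq, sum_const, nsmul_eq_mul]
  rw [sum_ite_mem, inter_self, sum_const, nsmul_eq_mul]
  apply le_of_eq
  ring

/-- a residue class in a dyadic block -/
lemma class_block (D P r : ℕ) (hP : 0 < P) (hPD : P ≤ D) (f : ℕ → ℝ) (hf : ∀ n, 0 ≤ f n) :
    ∑ j ∈ (Ioc D (2 * D)).filter (fun j => j % P = r), f (j / P - (D / P - 1)) ≤ ∑ n ∈ Icc 1 (D / P + 2), f n := by
  classical
  have hDP : 1 ≤ D / P := (Nat.one_le_div_iff hP).2 hPD
  have hinj : Set.InjOn (fun j => j / P - (D / P - 1)) ((Ioc D (2 * D)).filter (fun j => j % P = r)) := by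
    intro j hj k hk h
    rw [mem_coe, mem_filter, mem_Ioc] at hj hk
    have h1 : D / P ≤ j / P := Nat.div_le_div_right hj.1.1.le
    have h2 : D / P ≤ k / P := Nat.div_le_div_right hk.1.1.le
    simp only at h
    have h3 : j / P = k / P := by omega
    rw [← Nat.div_add_mod j P, ← Nat.div_add_mod k P, h3, hj.2, hk.2]
  rw [← sum_image (f := f) hinj]
  apply sum_le_sum_of_subset_of_nonneg
  · intro n hn
    rw [mem_image] at hn
    obtain ⟨j, hj, rfl⟩ := hn
    rw [mem_filter, mem_Ioc] at hj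
    have h1 : D / P ≤ j / P := Nat.div_le_div_right hj.1.1.le
    have h2 : j / P ≤ 2 * D / P := Nat.div_le_div_right hj.1.2
    have h3 : 2 * D / P ≤ 2 * (D / P) + 1 := by
      have h4 := Nat.lt_div_mul_add (a := D) hP
      have h5 : 2 * D < (2 * (D / P) + 2) * P := by nlinarith
      have := Nat.div_lt_of_lt_mul (show 2 * D < P * (2 * (D / P) + 2) by linarith)
      omega
    rw [mem_Icc]
    omega
  · intro n _ _
    exact hf n

end Pool.Agent.Helper24K9.LI
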