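import Mathlib
import Pool.Agent.Helper24K9.LI.Pr

set_option autoImplicit false

/-! A theorem of the type of Linnik for the primes in arbitrary families of linear forms. -/

open Finset

namespace Pool.Agent.Helper24K9.LI

open Pool.Agent.Erdos456 Pool.Agent.Erdos456.Mert Pool.Agent.W218.HF

/-- the number of the `t ∈ T` for which `g t * j + h t` is prime -/
noncomputable def cnt (T : Finset ℕ) (g : ℕ → ℕ) (h : ℕ → ℤ) (j : ℕ) : ℕ :=
  (T.filter (fun t => ((g t : ℤ) * j + h t).toNat.Prime)).card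

/-- one linear form -/
lemma first_form {K z : ℕ} {c : ℝ} (hK : 1 ≤ K) (q₁ : ℕ) (hz : 4 ≤ z)
    (hpage : ∀ q b : ℕ, 0 < q → q ^ 16 ≤ z → ¬ q₁ ∣ q → b.Coprime q →
      c / (q.totient : ℝ) ≤ ∑ p ∈ (Ioc z (z ^ K)).filter (fun p => p.Prime ∧ p ≡ b [MOD q]), (1 : ℝ) / p)
    (P r g J₁ J₂ : ℕ) (h : ℤ) (hP : 0 < P) (hr : r < P) (hg : 1 ≤ g) (hq : (P * g) ^ 16 ≤ z) (hq₁ : ¬ q₁ ∣ P * g)
    (hh : 4 * h.natAbs ≤ z) (hcop : IsCoprime ((P * g : ℕ) : ℤ) ((r : ℤ) * g + h))
    (hJ₁ : 4 * g * J₁ ≤ z) (hJ₂ : 2 * z ^ K ≤ J₂) :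
    c / 2 * (GG (P * g) / P) ≤
      ∑ j ∈ (Ioc J₁ J₂).filter (fun j => j % P = r), 1 / (j : ℝ) * (if ((g : ℤ) * j + h).toNat.Prime then 1 else 0) := by
  classical
  set q := P * g with hqd
  have hq0 : 0 < q := Nat.mul_pos hP hg
  -- a nonnegative representative
  set b : ℕ := (((r : ℤ) + P * z) * g + h).toNat with hb
  have hzz : (4 * (h.natAbs : ℤ)) ≤ z := by exact_mod_cast hh
  have habs : |h| = (h.natAbs : ℤ) := by simp
  have hbc : (b : ℤ) = ((r : ℤ) + P * z) * g + h := by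
    rw [hb]
    apply Int.toNat_of_nonneg
    have h1 : (1:ℤ) ≤ P := by exact_mod_cast hP
    have h2 : (1:ℤ) ≤ g := by exact_mod_cast hg
    have h3 := neg_abs_le h
    rw [habs] at h3
    have h4 : (z : ℤ) ≤ ((r : ℤ) + P * z) * g := by
      have h5 : (0:ℤ) ≤ z := Int.natCast_nonneg _
      have h6 : (0:ℤ) ≤ r := Int.natCast_nonneg _
      nlinarith [mul_nonneg h5 (sub_nonneg.2 h1), mul_nonneg (add_nonneg h6 (mul_nonneg (by linarith : (0:ℤ) ≤ P) h5)) (sub_nonneg.2 h2)]
    have h5 : (0:ℤ) ≤ z := Int.natCast_nonneg _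
    linarith [Int.natCast_nonneg h.natAbs]
  have hbcop : b.Coprime q := by
    have h1 : IsCoprime (b : ℤ) (q : ℤ) := by
      rw [hbc]
      have h2 := hcop.symm.add_mul_right_left (z : ℤ)
      have e : (r : ℤ) * g + h + z * ((q : ℕ) : ℤ) = ((r : ℤ) + P * z) * g + h := by
        rw [hqd]; push_cast; ring
      rwa [e] at h2
    exact Nat.isCoprime_iff_coprime.1 h1
  have h1 := hpage q b hq0 hq hq₁ hbcop
  -- the primes
  have hz0 : (0:ℝ) < z := by exact_mod_cast (by omega : 0 < z)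
  have hg0 : (0:ℝ) < g := by exact_mod_cast hg
  have key : ∀ p ∈ (Ioc z (z ^ K)).filter (fun p => p.Prime ∧ p ≡ b [MOD q]),
      ∃ j : ℕ, J₁ < j ∧ j ≤ J₂ ∧ j % P = r ∧ (p : ℤ) = g * j + h := by
    intro p hp
    rw [mem_filter, mem_Ioc] at hp
    obtain ⟨⟨hp1, hp2⟩, hp3, hp4⟩ := hp
    have h2 : ((q : ℕ) : ℤ) ∣ (b : ℤ) - p := (Nat.modEq_iff_dvd).1 hp4
    obtain ⟨m, hm⟩ := h2
    rw [hbc, hqd] at hm
    push_cast at hm
    have h3 : (p : ℤ) = g * ((r : ℤ) + P * (z - m)) + h := by linear_combination -hm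
    have hpz : (z : ℤ) < p := by exact_mod_cast hp1
    have h4 : (0:ℤ) < (r : ℤ) + P * (z - m) := by
      by_contra hcon
      push Not at hcon
      have h5 : (g : ℤ) * ((r : ℤ) + P * (z - m)) ≤ 0 := mul_nonpos_of_nonneg_of_nonpos (Int.natCast_nonneg _) hcon
      have h6 := le_abs_self h
      rw [habs] at h6
      linarith [Int.natCast_nonneg h.natAbs]
    set k : ℤ := (r : ℤ) + P * (z - m) with hk
    have hkc : ((k.toNat : ℕ) : ℤ) = k := Int.toNat_of_nonneg h4.le
    refine ⟨k.toNat, ?_, ?_, ?_, ?_⟩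
    · -- lower bound
      have h5 : (4 * g * J₁ : ℤ) ≤ z := by exact_mod_cast hJ₁
      by_contra hcon
      push Not at hcon
      have h6 : k ≤ (J₁ : ℤ) := by rw [← hkc]; exact_mod_cast hcon
      have h7 : (g : ℤ) * k ≤ g * J₁ := mul_le_mul_of_nonneg_left h6 (Int.natCast_nonneg _)
      have h8 := le_abs_self h
      rw [habs] at h8
      have h9 : (0:ℤ) ≤ g * J₁ := by positivity
      linarith [Int.natCast_nonneg h.natAbs]
    · have h5 : (2 * (z : ℤ) ^ K) ≤ J₂ := by exact_mod_cast hJ₂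
      have h6 : (p : ℤ) ≤ (z : ℤ) ^ K := by exact_mod_cast hp2
      have h7 : k ≤ (g : ℤ) * k := by
        have h8 : (1:ℤ) ≤ g := by exact_mod_cast hg
        nlinarith
      have h8 := neg_abs_le h
      rw [habs] at h8
      have h9 : (z : ℤ) ≤ (z : ℤ) ^ K := by
        have : z ≤ z ^ K := Nat.le_self_pow (by omega) z
        exact_mod_cast this
      have h10 : k ≤ (J₂ : ℤ) := by linarith [Int.natCast_nonneg h.natAbs]
      rw [← hkc] at h10
      exact_mod_cast h10
    · have h5 : k.toNat % P = r := by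
        have h6 : ((k.toNat % P : ℕ) : ℤ) = (r : ℤ) := by
          push_cast
          rw [hkc, hk, Int.add_mul_emod_self_left]
          exact Int.emod_eq_of_lt (Int.natCast_nonneg _) (by exact_mod_cast hr)
        exact_mod_cast h6
      exact h5
    · rw [hkc]; exact h3
  choose! φ hφ using key
  have h2 : ∑ p ∈ (Ioc z (z ^ K)).filter (fun p => p.Prime ∧ p ≡ b [MOD q]), (g : ℝ) / 2 * ((1 : ℝ) / p) ≤
      ∑ j ∈ (Ioc J₁ J₂).filter (fun j => j % P = r), 1 / (j : ℝ) * (if ((g : ℤ) * j + h).toNat.Prime then 1 else 0) := by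
    set S := (Ioc z (z ^ K)).filter (fun p => p.Prime ∧ p ≡ b [MOD q]) with hS
    have hinj : Set.InjOn φ S := by
      intro p hp p' hp' hpp
      have h3 := (hφ p hp).2.2.2
      have h4 := (hφ p' hp').2.2.2
      rw [hpp, ← h4] at h3
      exact_mod_cast h3
    calc ∑ p ∈ S, (g : ℝ) / 2 * ((1 : ℝ) / p) ≤ ∑ p ∈ S, 1 / (φ p : ℝ) * (if ((g : ℤ) * (φ p) + h).toNat.Prime then 1 else 0) := by
          apply sum_le_sum
          intro p hp
          obtain ⟨h3, h4, h5, h6⟩ := hφ p hp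
          rw [hS, mem_filter, mem_Ioc] at hp
          rw [← h6, Int.toNat_natCast, if_pos hp.2.1, mul_one]
          have hp0 : (0:ℝ) < p := by exact_mod_cast hp.2.1.pos
          have hj0 : (0:ℝ) < φ p := by exact_mod_cast (by omega : 0 < φ p)
          rw [div_mul_div_comm, mul_one, div_le_div_iff₀ (by positivity) hj0, one_mul]
          have h7 : (g : ℤ) * (φ p) ≤ 2 * p := by
            have h8 := neg_abs_le h
            rw [habs] at h8
            have h9 : (z : ℤ) < p := by exact_mod_cast hp.1.1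
            linarith [Int.natCast_nonneg h.natAbs]
          exact_mod_cast h7
      _ = ∑ j ∈ S.image φ, 1 / (j : ℝ) * (if ((g : ℤ) * j + h).toNat.Prime then 1 else 0) := by
          rw [sum_image hinj]
      _ ≤ _ := by
          apply sum_le_sum_of_subset_of_nonneg
          · intro j hj
            obtain ⟨p, hp, rfl⟩ := mem_image.1 hj
            obtain ⟨h3, h4, h5, h6⟩ := hφ p hp
            rw [mem_filter, mem_Ioc]
            exact ⟨⟨h3, h4⟩, h5⟩
          · intro j _ _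
            split_ifs <;> positivity
  refine le_trans ?_ h2
  rw [← mul_sum]
  refine le_trans (le_of_eq ?_) (mul_le_mul_of_nonneg_left h1 (by positivity))
  unfold GG
  have hφq : (0:ℝ) < (Nat.totient q : ℝ) := by exact_mod_cast Nat.totient_pos.2 hq0
  have hP0 : (0:ℝ) < P := by exact_mod_cast hP
  rw [hqd]
  push_cast
  rw [hqd] at hφq
  field_simp

end Pool.Agent.Helper24K9.LI
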