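import Mathlib
import Pool.Agent.Helper24K9.LI.Fo

set_option autoImplicit false

/-! A theorem of the type of Linnik for the primes in arbitrary families of linear forms: the proof. -/

open Finset Filter Topology

namespace Pool.Agent.Helper24K9.LI

open Pool.Agent.Erdos456 Pool.Agent.Erdos456.Mert Pool.Agent.W218.HF

lemma ev_z : ∀ᶠ z : ℕ in atTop, 640 ≤ Real.log z ∧ 16 ≤ z := by
  have h1 : Tendsto (fun n : ℕ => Real.log n) atTop atTop := Real.tendsto_log_atTop.comp tendsto_natCast_atTop_atTop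
  exact (h1.eventually_ge_atTop _).and (eventually_ge_atTop _)

/-- one class; the small primes are those `≤ log z / ν` -/
theorem one_class_nu (ν : ℕ) (hν : 64 ≤ ν) (K : ℕ) (hK : 1 ≤ K) (c : ℝ) (hc : 0 < c) : ∃ κ₀ κ₁ : ℝ, 0 < κ₀ ∧ 0 < κ₁ ∧
    ∀ z : ℕ, 10 * ν ≤ Real.log z → 16 ≤ z → ∀ q₁ r₁ : ℕ, r₁.Prime →
    (∀ q b : ℕ, 0 < q → q ^ 16 ≤ z → ¬ q₁ ∣ q → b.Coprime q →
      c / (q.totient : ℝ) ≤ ∑ p ∈ (Ioc z (z ^ K)).filter (fun p => p.Prime ∧ p ≡ b [MOD q]), (1 : ℝ) / p) →
    ∀ (T : Finset ℕ) (g : ℕ → ℕ) (h : ℕ → ℤ),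
    (∀ t ∈ T, 1 ≤ g t ∧ g t ^ 64 ≤ z ∧ (h t).natAbs ^ 64 ≤ z ∧ IsCoprime (g t : ℤ) (h t) ∧
      ¬ q₁ ∣ PQ (QQ ⌊Real.log z / ν⌋₊ r₁) * g t) →
    (∀ s ∈ T, ∀ t ∈ T, s ≠ t → (g s : ℤ) * h t ≠ g t * h s) →
    ∀ (Q : Finset ℕ), Q = QQ ⌊Real.log z / ν⌋₊ r₁ → ∀ r < PQ Q, (∀ t ∈ T, ∀ p ∈ Q, ¬ (p : ℤ) ∣ (r : ℤ) * g t + h t) →
    κ₁ * (Real.log z / PQ Q) * ((T.card / (WQ Q * Real.log z)) / (1 + T.card / (WQ Q * Real.log z))) ≤
      ∑ j ∈ ((Ioc (Nat.sqrt z) (z ^ (K + 1))).filter (fun j => j % PQ Q = r)).filter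
        (fun j => κ₀ * (T.card / (WQ Q * Real.log z)) ≤ (cnt T g h j : ℝ)), 1 / (j : ℝ) := by
  classical
  obtain ⟨C, hC, hpairs⟩ := pairs
  have hK0 : (0:ℝ) < K := by exact_mod_cast hK
  have hK1 : (1:ℝ) ≤ K := by exact_mod_cast hK
  have hν64 : (64:ℝ) ≤ ν := by exact_mod_cast hν
  have hν0 : (0:ℝ) < ν := by linarith
  set Γ₀ : ℝ := Real.exp (3 / 2 * (2 * ν)) with hΓ₀
  have hΓ₀0 : 0 < Γ₀ := Real.exp_pos _
  set C₄ : ℝ := 480 * Γ₀ + 192 * C * Γ₀ ^ 2 with hC₄
  have hC₄0 : 0 < C₄ := by positivity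
  refine ⟨c / (48 * K), c ^ 2 / (64 * K * C₄), by positivity, by positivity, ?_⟩
  intro z hLν z16 q₁ r₁ hr₁ hpage T g h hT hTd Q hQ r hr hTr
  have hL : 640 ≤ Real.log z := by linarith
  have hQp : ∀ p ∈ Q, p.Prime := by rw [hQ]; exact QQ_prime _ _
  set L : ℝ := Real.log z with hLd
  have hL0 : 0 < L := by linarith
  have hz0 : (0:ℝ) < z := by exact_mod_cast (by omega : 0 < z)
  have hzexp : Real.exp L = z := Real.exp_log hz0
  set y : ℕ := ⌊L / ν⌋₊ with hy
  have hyle : (y : ℝ) ≤ L / 64 :=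
    (Nat.floor_le (by positivity)).trans (div_le_div_of_nonneg_left hL0.le (by norm_num) hν64)
  have hLν10 : 10 ≤ L / ν := by
    rw [le_div_iff₀ hν0]; exact hLν
  have hyge' : L / ν / 2 + 1 ≤ y := by
    have := Nat.lt_floor_add_one (L / ν)
    rw [← hy] at this
    linarith
  have hyge : L ≤ 2 * ν * y := by
    have h1 : L / ν / 2 ≤ y := by linarith
    rw [div_div, div_le_iff₀ (by positivity)] at h1
    linarith
  have hy1r : (1:ℝ) ≤ y := by linarith
  have hy1 : 1 ≤ y := by exact_mod_cast hy1r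
  set P : ℕ := PQ Q with hP
  have hP0 : 0 < P := PQ_pos hQp
  have hP0r : (0:ℝ) < P := by exact_mod_cast hP0
  have hPe : (P : ℝ) ≤ Real.exp (L / 40) := by
    have h1 : (P : ℝ) ≤ 4 ^ y := by
      have : P ≤ 4 ^ y := by rw [hP, hQ]; exact PQ_QQ_le y r₁
      exact_mod_cast this
    have h2 : (4:ℝ) ^ y = Real.exp (y * Real.log 4) := by
      rw [Real.exp_nat_mul, Real.exp_log (by norm_num)]
    have h3 : Real.log 4 ≤ 3 / 2 := by
      have e : (4:ℝ) = 2 ^ 2 := by norm_num
      rw [e, Real.log_pow]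
      have := Real.log_two_lt_d9
      push_cast
      linarith
    refine h1.trans ?_
    rw [h2]
    apply Real.exp_le_exp.2
    calc (y:ℝ) * Real.log 4 ≤ (L / 64) * (3 / 2) := by
          apply mul_le_mul hyle h3 (Real.log_nonneg (by norm_num)) (by positivity)
      _ ≤ L / 40 := by linarith
  -- `u ^ 64 ≤ z` gives `u ≤ exp (L / 64)`
  have h64 : ∀ u : ℕ, u ^ 64 ≤ z → (u : ℝ) ≤ Real.exp (L / 64) := by
    intro u hu
    have h1 : (u : ℝ) ^ 64 ≤ Real.exp (L / 64) ^ 64 := by
      rw [← Real.exp_nat_mul]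
      have e : ((64:ℕ) : ℝ) * (L / 64) = L := by push_cast; ring
      rw [e, hzexp]
      exact_mod_cast hu
    exact (pow_le_pow_iff_left₀ (Nat.cast_nonneg _) (Real.exp_pos _).le (by norm_num)).1 h1
  have hge : ∀ t ∈ T, (g t : ℝ) ≤ Real.exp (L / 64) := fun t ht => h64 _ (hT t ht).2.1
  have hhe : ∀ t ∈ T, ((h t).natAbs : ℝ) ≤ Real.exp (L / 64) := fun t ht => h64 _ (hT t ht).2.2.1
  have hexp2 : ∀ a : ℝ, 1 / 8 ≤ a → 16 ≤ Real.exp (a * L) := by
    intro a ha
    have h1 := Real.add_one_le_exp (a * L)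
    have h2 : 1 / 8 * L ≤ a * L := mul_le_mul_of_nonneg_right ha hL0.le
    linarith
  -- `J₁`
  set J₁ : ℕ := Nat.sqrt z with hJ₁
  have hJ₁le : (J₁ : ℝ) ≤ Real.exp (L / 2) := by
    have h1 : (J₁ : ℝ) ^ 2 ≤ Real.exp (L / 2) ^ 2 := by
      rw [← Real.exp_nat_mul]
      have e : ((2:ℕ) : ℝ) * (L / 2) = L := by push_cast; ring
      rw [e, hzexp]
      have : J₁ ^ 2 ≤ z := Nat.sqrt_le' z
      exact_mod_cast this
    exact (pow_le_pow_iff_left₀ (Nat.cast_nonneg _) (Real.exp_pos _).le (by norm_num)).1 h1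
  have hJ₁ge : Real.exp (L / 2) ≤ 2 * J₁ := by
    have h1 : Real.exp (L / 2) ^ 2 ≤ ((J₁ : ℝ) + 1) ^ 2 := by
      rw [← Real.exp_nat_mul]
      have e : ((2:ℕ) : ℝ) * (L / 2) = L := by push_cast; ring
      rw [e, hzexp]
      have : z < (J₁ + 1) ^ 2 := Nat.lt_succ_sqrt' z
      exact_mod_cast this.le
    have h2 := (pow_le_pow_iff_left₀ (Real.exp_pos _).le (by positivity) (by norm_num)).1 h1
    have h3 := hexp2 (1/2) (by norm_num)
    have e : (1:ℝ) / 2 * L = L / 2 := by ring
    rw [e] at h3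
    linarith
  have hJ₁0 : (0:ℝ) < J₁ := by have := Real.exp_pos (L / 2); linarith
  have hJ₁1 : 1 ≤ J₁ := by exact_mod_cast hJ₁0
  have hPJ : 8 * (P:ℝ) ≤ J₁ := by
    have h1 : 16 * Real.exp (L / 40) ≤ Real.exp (L / 2) := by
      have h2 := hexp2 (19/40) (by norm_num)
      calc 16 * Real.exp (L / 40) ≤ Real.exp (19/40 * L) * Real.exp (L / 40) := by gcongr
        _ = Real.exp (L / 2) := by rw [← Real.exp_add]; congr 1; ring
    linarith
  -- `U`
  set U : ℕ := Nat.clog 2 (2 * z ^ K) with hU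
  have hzK1 : 1 ≤ z ^ K := Nat.one_le_pow _ _ (by omega)
  have hU1 : 2 * z ^ K ≤ 2 ^ U := Nat.le_pow_clog one_lt_two _
  have hU2 : 2 ^ U ≤ 4 * z ^ K := by
    have h1 : 1 < 2 * z ^ K := by omega
    have h2 := Nat.pow_pred_clog_lt_self one_lt_two h1
    have h3 : 0 < U := Nat.clog_pos one_lt_two h1
    obtain ⟨V, hV⟩ : ∃ V, U = V + 1 := ⟨U - 1, by omega⟩
    rw [← hU, hV] at h2
    simp only [Nat.pred_eq_sub_one, Nat.add_sub_cancel] at h2
    rw [hV, pow_succ]
    omega
  have hUL : (U : ℝ) ≤ 4 * (K * L) := by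
    have h1 : (2:ℝ) ^ U ≤ 4 * (z:ℝ) ^ K := by exact_mod_cast hU2
    have h2 := Real.log_le_log (by positivity) h1
    rw [Real.log_pow, Real.log_mul (by norm_num) (by positivity), Real.log_pow] at h2
    have h3 : Real.log 4 ≤ 3 / 2 := by
      have e : (4:ℝ) = 2 ^ 2 := by norm_num
      rw [e, Real.log_pow]
      have := Real.log_two_lt_d9
      push_cast
      linarith
    have h4 := Real.log_two_gt_d9
    have h5 : (U:ℝ) * (1/2) ≤ U * Real.log 2 := mul_le_mul_of_nonneg_left (by linarith) (Nat.cast_nonneg _)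
    have h6 : L ≤ K * L := le_mul_of_one_le_left hL0.le hK1
    rw [← hLd] at h2
    linarith
  have hU0 : (0:ℝ) ≤ U := Nat.cast_nonneg _
  set J₂ : ℕ := 2 ^ U * J₁ with hJ₂
  have h4J : ∀ t ∈ T, 4 * g t * J₁ ≤ z := by
    intro t ht
    have h1 : 4 * (g t : ℝ) * J₁ ≤ z := by
      calc 4 * (g t : ℝ) * J₁ ≤ 16 * Real.exp (L / 64) * Real.exp (L / 2) := by
            have := hge t ht
            gcongr
            norm_num
        _ ≤ Real.exp (31/64 * L) * Real.exp (L / 64) * Real.exp (L / 2) := by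
            have := hexp2 (31/64) (by norm_num)
            gcongr
        _ = z := by rw [← Real.exp_add, ← Real.exp_add, ← hzexp]; congr 1; ring
    exact_mod_cast h1
  have h4J' : 4 * J₁ ≤ z := by
    have h1 : 4 * (J₁:ℝ) ≤ z := by
      calc 4 * (J₁ : ℝ) ≤ 16 * Real.exp (L / 2) := by
            have := Real.exp_pos (L / 2)
            linarith
        _ ≤ Real.exp (1/2 * L) * Real.exp (L / 2) := by
            have := hexp2 (1/2) (by norm_num)
            gcongr
        _ = z := by rw [← Real.exp_add, ← hzexp]; congr 1; ring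
    exact_mod_cast h1
  have hJ₂z : J₂ ≤ z ^ (K + 1) := by
    calc J₂ = 2 ^ U * J₁ := rfl
      _ ≤ (4 * z ^ K) * J₁ := Nat.mul_le_mul_right _ hU2
      _ = z ^ K * (4 * J₁) := by ring
      _ ≤ z ^ K * z := Nat.mul_le_mul_left _ h4J'
      _ = z ^ (K + 1) := by ring
  have hJ₂K : 2 * z ^ K ≤ J₂ := hU1.trans (Nat.le_mul_of_pos_right _ hJ₁1)
  -- the constants `W`, `Γ`
  set W : ℝ := WQ Q with hW
  have hW0 : 0 < W := WQ_pos hQp
  have hWz0 : 0 < Wz y := Wz_pos y
  have hWWz : W ≤ 2 * Wz y := by rw [hW, hQ]; exact WQ_QQ_le y r₁ hr₁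
  set Γ : ℝ := Γ₀ / Wz y with hΓ
  have hΓW : Γ ≤ 2 * Γ₀ / W := by
    rw [hΓ, div_le_div_iff₀ hWz0 hW0]
    calc Γ₀ * W ≤ Γ₀ * (2 * Wz y) := by gcongr
      _ = _ := by ring
  have hexpy : Real.exp L ≤ Real.exp (2 * ν * y) := Real.exp_le_exp.2 hyge
  set n : ℝ := (T.card : ℝ) with hn
  have hn0 : 0 ≤ n := Nat.cast_nonneg _
  set X : ℝ := n / (W * L) with hX
  have hX0 : 0 ≤ X := by positivity
  have hnΓ : n * Γ / L ≤ 2 * Γ₀ * X := by
    calc n * Γ / L ≤ n * (2 * Γ₀ / W) / L := by gcongr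
      _ = 2 * Γ₀ * X := by rw [hX]; field_simp
  have hnΓ0 : 0 ≤ n * Γ / L := by positivity
  -- the window
  set Win := (Ioc J₁ J₂).filter (fun j => j % P = r) with hWin
  set F : ℕ → ℝ := fun j => (cnt T g h j : ℝ) with hF
  have hblockJ : ∀ u : ℕ, J₁ ≤ 2 ^ u * J₁ := fun u => Nat.le_mul_of_pos_left _ (by positivity)
  -- facts on blocks
  have hDfacts : ∀ D : ℕ, J₁ ≤ D → P ≤ D ∧ ((D / P + 2 : ℕ) : ℝ) ≤ 3 * (D / P) ∧ L / 4 ≤ Real.log ((D / P + 2 : ℕ) : ℝ) ∧
      2 ≤ D / P + 2 := by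
    intro D hD
    have hDr : (J₁ : ℝ) ≤ D := by exact_mod_cast hD
    have hPD : P ≤ D := by
      have : (P:ℝ) ≤ D := by linarith
      exact_mod_cast this
    have h1 : ((D / P : ℕ) : ℝ) ≤ (D:ℝ) / P := Nat.cast_div_le
    have h2 : (1:ℝ) ≤ (D:ℝ) / P := by
      rw [le_div_iff₀ hP0r]
      linarith
    refine ⟨hPD, ?_, ?_, Nat.le_add_left 2 (D / P)⟩
    · push_cast
      linarith
    · have h3 : Real.exp (L / 4) ≤ ((D / P + 2 : ℕ) : ℝ) := by
        have h4 : (D : ℝ) / P ≤ ((D / P + 2 : ℕ) : ℝ) := by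
          have h5 := Nat.lt_div_mul_add (a := D) hP0
          rw [div_le_iff₀ hP0r]
          have h6 : (D : ℝ) ≤ (D / P : ℕ) * P + P := by exact_mod_cast h5.le
          push_cast
          push_cast at h6
          nlinarith
        refine le_trans ?_ h4
        rw [le_div_iff₀ hP0r]
        calc Real.exp (L / 4) * P ≤ Real.exp (L / 4) * Real.exp (L / 40) := by gcongr
          _ = Real.exp (L / 4 + L / 40) := by rw [← Real.exp_add]
          _ ≤ Real.exp (L / 2) / 2 := by
              rw [le_div_iff₀ (by norm_num)]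
              have h5 := hexp2 (9/40) (by norm_num)
              calc Real.exp (L / 4 + L / 40) * 2 ≤ Real.exp (L / 4 + L / 40) * Real.exp (9/40 * L) := by gcongr; linarith
                _ = Real.exp (L / 2) := by rw [← Real.exp_add]; congr 1; ring
          _ ≤ D := by linarith
      rw [Real.le_log_iff_exp_le (by positivity)]
      exact h3
  -- (S0)
  have hS0 : ∑ j ∈ Win, 1 / (j : ℝ) ≤ 12 * K * (L / P) := by
    have h1 := blocks (fun j => j % P = r) (fun _ => (1:ℝ)) (fun _ => zero_le_one) (3 / P) J₁ hJ₁1 U (by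
      intro u _
      obtain ⟨h2, h3, -, -⟩ := hDfacts (2 ^ u * J₁) (hblockJ u)
      refine (class_block (2 ^ u * J₁) P r hP0 h2 (fun _ => (1:ℝ)) (fun _ => zero_le_one)).trans ?_
      rw [sum_const, nsmul_eq_mul, mul_one, Nat.card_Icc, Nat.add_sub_cancel]
      refine h3.trans (le_of_eq ?_)
      ring)
    simp only [mul_one] at h1
    calc ∑ j ∈ Win, 1 / (j : ℝ) ≤ 3 / P * U := h1
      _ ≤ 3 / P * (4 * (K * L)) := by gcongr
      _ = _ := by ring
  -- (S2)
  have hS2 : ∑ j ∈ Win, 1 / (j : ℝ) * F j ^ 2 ≤ C₄ * (X + X ^ 2) * (4 * K * (L / P)) := by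
    have h1 := blocks (fun j => j % P = r) (fun j => F j ^ 2) (fun _ => sq_nonneg _) (C₄ * (X + X ^ 2) / P) J₁ hJ₁1 U (by
      intro u _
      set D := 2 ^ u * J₁ with hD
      obtain ⟨hPD, hN3, hlN, hN2⟩ := hDfacts D (hblockJ u)
      have hDJ : (J₁ : ℝ) ≤ D := by exact_mod_cast hblockJ u
      set N := D / P + 2 with hN
      set m₀ := D / P - 1 with hm₀
      have hDP1 : 1 ≤ D / P := (Nat.one_le_div_iff hP0).2 hPD
      set q : ℕ → ℕ := fun t => P * g t with hq
      set e : ℕ → ℕ := fun t => (((r : ℤ) + P * m₀) * g t + h t).toNat with he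
      have hecast : ∀ t ∈ T, ((e t : ℕ) : ℤ) = ((r : ℤ) + P * m₀) * g t + h t := by
        intro t ht
        apply Int.toNat_of_nonneg
        have h2 : ((h t).natAbs : ℝ) ≤ P * m₀ := by
          have h3 : (D : ℝ) - 2 * P ≤ P * m₀ := by
            have h5 := Nat.lt_div_mul_add (a := D) hP0
            have h6 : (D : ℝ) ≤ (D / P : ℕ) * P + P := by exact_mod_cast h5.le
            have h7 : (m₀ : ℝ) = ((D / P : ℕ) : ℝ) - 1 := by
              rw [hm₀, Nat.cast_sub hDP1]; simp
            rw [h7]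
            linarith
          have h4 : Real.exp (L / 64) ≤ J₁ / 2 := by
            have h5 := hexp2 (31/64) (by norm_num)
            have h6 : 4 * Real.exp (L / 64) ≤ Real.exp (L / 2) := by
              calc 4 * Real.exp (L / 64) ≤ Real.exp (31/64 * L) * Real.exp (L / 64) := by gcongr; linarith
                _ = Real.exp (L / 2) := by rw [← Real.exp_add]; congr 1; ring
            linarith
          have := hhe t ht
          linarith
        have h3 : ((h t).natAbs : ℤ) ≤ P * m₀ := by exact_mod_cast h2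
        have h4 := neg_abs_le (h t)
        have h5 : |h t| = ((h t).natAbs : ℤ) := by simp
        rw [h5] at h4
        have h6 : (1:ℤ) ≤ g t := by exact_mod_cast (hT t ht).1
        have h7 : (0:ℤ) ≤ (P : ℤ) * m₀ := by positivity
        have h8 : (0:ℤ) ≤ r := Int.natCast_nonneg _
        nlinarith
      have hecop : ∀ t ∈ T, (q t).Coprime (e t) := by
        intro t ht
        have h2 : Nat.Coprime (g t) (e t) := by
          have h3 : IsCoprime ((g t : ℕ) : ℤ) ((e t : ℕ) : ℤ) := by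
            rw [hecast t ht]
            have := (hT t ht).2.2.2.1.add_mul_left_right ((r : ℤ) + P * m₀)
            have e3 : h t + (g t : ℤ) * ((r : ℤ) + P * m₀) = ((r : ℤ) + P * m₀) * g t + h t := by ring
            rwa [e3] at this
          exact Nat.isCoprime_iff_coprime.1 h3
        apply Nat.Coprime.mul_left _ h2
        rw [hP]
        unfold PQ
        apply Nat.Coprime.prod_left
        intro p hp
        have hpp := hQp p hp
        rw [hpp.coprime_iff_not_dvd]
        intro h3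
        apply hTr t ht p hp
        have h4 : (p : ℤ) ∣ ((e t : ℕ) : ℤ) := by exact_mod_cast h3
        rw [hecast t ht] at h4
        have h5 : (p : ℤ) ∣ (P : ℤ) := by
          have : p ∣ P := by rw [hP]; exact dvd_prod_of_mem _ hp
          exact_mod_cast this
        have h6 : ((r : ℤ) + P * m₀) * g t + h t = ((r : ℤ) * g t + h t) + P * (m₀ * g t) := by ring
        rw [h6] at h4
        exact (dvd_add_left (h5.mul_right _)).1 h4
      have hdiff : ∀ s ∈ T, ∀ t ∈ T, ((q s * e t : ℕ) : ℤ) - ((q t * e s : ℕ) : ℤ) =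
          P * ((g s : ℤ) * h t - g t * h s) := by
        intro s hs t ht
        rw [hq]
        push_cast
        rw [hecast s hs, hecast t ht]
        ring
      have hqe : ∀ t ∈ T, (q t : ℝ) ≤ Real.exp (L / 20) := by
        intro t ht
        rw [hq]
        push_cast
        calc (P : ℝ) * g t ≤ Real.exp (L / 40) * Real.exp (L / 64) := by
              have := hge t ht
              gcongr
          _ = Real.exp (L / 40 + L / 64) := by rw [← Real.exp_add]
          _ ≤ _ := Real.exp_le_exp.2 (by linarith)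
      have h2 := hpairs N T q e Γ hN2 (by
        intro t ht
        refine ⟨Nat.mul_pos hP0 (hT t ht).1, hecop t ht, ?_⟩
        refine GG_le_W (2 * ν) (by positivity) (Nat.mul_pos hP0 (hT t ht).1) hy1 ?_
        exact (hqe t ht).trans ((Real.exp_le_exp.2 (by linarith)).trans hexpy)) (by
        intro s hs t ht hst
        have h3 := hTd s hs t ht hst
        have h4 : ((q s * e t : ℕ) : ℤ) - ((q t * e s : ℕ) : ℤ) ≠ 0 := by
          rw [hdiff s hs t ht]
          exact mul_ne_zero (by exact_mod_cast hP0.ne') (sub_ne_zero.2 h3)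
        refine ⟨fun h5 => h4 (by rw [h5]; ring), ?_⟩
        refine GG_le_W (2 * ν) (by positivity) ?_ hy1 ?_
        · have := Int.natAbs_pos.2 h4
          have h5 : 0 < q s := Nat.mul_pos hP0 (hT s hs).1
          have h6 : 0 < q t := Nat.mul_pos hP0 (hT t ht).1
          positivity
        · rw [hdiff s hs t ht, Int.natAbs_mul, Int.natAbs_natCast]
          push_cast
          have h5 : ((((g s : ℤ) * h t - g t * h s).natAbs : ℕ) : ℝ) ≤ 2 * Real.exp (L / 32) := by
            have h6 : ((g s : ℤ) * h t - g t * h s).natAbs ≤ g s * (h t).natAbs + g t * (h s).natAbs := by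
              refine (Int.natAbs_sub_le _ _).trans (le_of_eq ?_)
              rw [Int.natAbs_mul, Int.natAbs_mul, Int.natAbs_natCast, Int.natAbs_natCast]
            have h7 : ((((g s : ℤ) * h t - g t * h s).natAbs : ℕ) : ℝ) ≤
                (g s : ℝ) * (h t).natAbs + g t * (h s).natAbs := by exact_mod_cast h6
            have h8 : (g s : ℝ) * (h t).natAbs ≤ Real.exp (L / 64) * Real.exp (L / 64) := by
              have := hge s hs
              have := hhe t ht
              gcongr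
            have h9 : (g t : ℝ) * (h s).natAbs ≤ Real.exp (L / 64) * Real.exp (L / 64) := by
              have := hge t ht
              have := hhe s hs
              gcongr
            have h10 : Real.exp (L / 64) * Real.exp (L / 64) = Real.exp (L / 32) := by
              rw [← Real.exp_add]; congr 1; ring
            linarith
          have h6 := hqe s hs
          have h7 := hqe t ht
          have h8 := hexp2 (1/2) (by norm_num)
          calc (q s : ℝ) * q t * (P * ((((g s : ℤ) * h t - g t * h s).natAbs : ℕ) : ℝ))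
              ≤ Real.exp (L / 20) * Real.exp (L / 20) * (Real.exp (L / 40) * (2 * Real.exp (L / 32))) := by gcongr
            _ ≤ Real.exp (L / 20) * Real.exp (L / 20) * (Real.exp (L / 40) * (Real.exp (1/2 * L) * Real.exp (L / 32))) := by
                gcongr
                linarith
            _ = Real.exp (L / 20 + L / 20 + (L / 40 + (1/2 * L + L / 32))) := by
                rw [← Real.exp_add, ← Real.exp_add, ← Real.exp_add, ← Real.exp_add]
            _ ≤ Real.exp L := Real.exp_le_exp.2 (by linarith)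
            _ ≤ _ := hexpy)
      -- the values
      have hval : ∀ j ∈ (Ioc D (2 * D)).filter (fun j => j % P = r), F j ^ 2 =
          (fun n : ℕ => ((T.filter (fun t => (q t * n + e t).Prime)).card : ℝ) ^ 2) (j / P - (D / P - 1)) := by
        intro j hj
        rw [mem_filter, mem_Ioc] at hj
        have h3 : D / P ≤ j / P := Nat.div_le_div_right hj.1.1.le
        have h4 : j = r + P * (m₀ + (j / P - m₀)) := by
          have h5 : m₀ + (j / P - m₀) = j / P := by omega
          rw [h5]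
          have := Nat.div_add_mod j P
          rw [hj.2] at this
          omega
        simp only [hF, cnt]
        congr 3
        apply filter_congr
        intro t ht
        have h5 : ((g t : ℤ) * j + h t) = ((q t * (j / P - m₀) + e t : ℕ) : ℤ) := by
          rw [hq]
          push_cast
          rw [hecast t ht]
          have h6 : (j : ℤ) = r + P * (m₀ + ((j / P - m₀ : ℕ) : ℤ)) := by
            have := congrArg (fun x : ℕ => (x : ℤ)) h4
            push_cast at this
            exact this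
          rw [h6]
          have h7 : m₀ ≤ j / P := by omega
          push_cast [Nat.cast_sub h7]
          have h8 : (((j / P - m₀ : ℕ) : ℤ)) = (j : ℤ) / P - m₀ := by
            rw [Nat.cast_sub h7]; push_cast; rfl
          ring_nf
          try rw [h8]
          try ring_nf
        rw [h5, Int.toNat_natCast]
      rw [sum_congr rfl hval]
      refine (class_block D P r hP0 hPD (fun n : ℕ => ((T.filter (fun t => (q t * n + e t).Prime)).card : ℝ) ^ 2)
        (fun _ => sq_nonneg _)).trans ?_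
      refine h2.trans ?_
      have hlN0 : 0 < Real.log N := by linarith
      have hDPr : (0:ℝ) ≤ (D:ℝ) / P := by positivity
      have h3 : (N : ℝ) / Real.log N ≤ 12 * (D / P) / L := by
        rw [div_le_div_iff₀ hlN0 hL0]
        calc (N:ℝ) * L ≤ (3 * (D / P)) * (4 * Real.log N) := by gcongr; linarith
          _ = _ := by ring
      have h4 : (N : ℝ) / Real.log N ^ 2 ≤ 48 * (D / P) / L ^ 2 := by
        rw [div_le_div_iff₀ (by positivity) (by positivity)]
        calc (N:ℝ) * L ^ 2 ≤ (3 * (D / P)) * (4 * Real.log N) ^ 2 := by gcongr; linarith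
          _ = _ := by ring
      have hΓ0 : 0 ≤ Γ := by positivity
      calc 20 * ((T.card : ℝ) * Γ) * (N / Real.log N) + C * ((T.card : ℝ) * Γ) ^ 2 * (N / Real.log N ^ 2)
          ≤ 20 * (n * Γ) * (12 * (D / P) / L) + C * (n * Γ) ^ 2 * (48 * (D / P) / L ^ 2) := by
            rw [← hn]
            gcongr
        _ = (240 * (n * Γ / L) + 48 * C * (n * Γ / L) ^ 2) * (D / P) := by field_simp; ring
        _ ≤ (240 * (2 * Γ₀ * X) + 48 * C * (2 * Γ₀ * X) ^ 2) * (D / P) := by gcongr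
        _ ≤ (C₄ * (X + X ^ 2)) * (D / P) := by
            apply mul_le_mul_of_nonneg_right _ hDPr
            rw [hC₄]
            have h5 : 0 ≤ 480 * Γ₀ * X ^ 2 := by positivity
            have h6 : 0 ≤ 192 * C * Γ₀ ^ 2 * X := by positivity
            linarith
        _ = _ := by ring)
    calc ∑ j ∈ Win, 1 / (j : ℝ) * F j ^ 2 ≤ C₄ * (X + X ^ 2) / P * U := h1
      _ ≤ C₄ * (X + X ^ 2) / P * (4 * (K * L)) := by gcongr
      _ = _ := by ring
  -- (S1)
  have hS1 : c / 2 * (L / P) * X ≤ ∑ j ∈ Win, 1 / (j : ℝ) * F j := by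
    have h1 : ∑ j ∈ Win, 1 / (j : ℝ) * F j = ∑ t ∈ T, ∑ j ∈ Win, 1 / (j : ℝ) *
        (if ((g t : ℤ) * j + h t).toNat.Prime then 1 else 0) := by
      rw [sum_comm]
      apply sum_congr rfl
      intro j _
      rw [← mul_sum]
      congr 1
      simp only [hF, cnt, card_filter]
      push_cast
      rfl
    rw [h1]
    have h2 : ∀ t ∈ T, c / 2 * (1 / W / P) ≤ ∑ j ∈ Win, 1 / (j : ℝ) *
        (if ((g t : ℤ) * j + h t).toNat.Prime then 1 else 0) := by
      intro t ht
      obtain ⟨hg1, -, -, hgh, hr₁g⟩ := hT t ht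
      have hPg : 0 < P * g t := Nat.mul_pos hP0 hg1
      have h3 : (P * g t) ^ 16 ≤ z := by
        have h4 : ((P : ℝ) * g t) ^ 16 ≤ z := by
          calc ((P : ℝ) * g t) ^ 16 ≤ (Real.exp (L / 40) * Real.exp (L / 64)) ^ 16 := by
                have := hge t ht
                gcongr
            _ = Real.exp (16 * (L / 40 + L / 64)) := by
                rw [← Real.exp_add, ← Real.exp_nat_mul]; norm_num
            _ ≤ Real.exp L := Real.exp_le_exp.2 (by linarith)
            _ = z := hzexp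
        exact_mod_cast h4
      have h4 : ¬ q₁ ∣ P * g t := by
        rw [hP, hQ]
        exact hr₁g
      have h5 : IsCoprime ((P * g t : ℕ) : ℤ) ((r : ℤ) * g t + h t) := by
        push_cast
        apply IsCoprime.mul_left
        · rw [hP]
          unfold PQ
          push_cast
          apply IsCoprime.prod_left
          intro p hp
          have hpp := Nat.prime_iff_prime_int.1 (hQp p hp)
          exact (Prime.coprime_iff_not_dvd hpp).2 (hTr t ht p hp)
        · have := hgh.add_mul_left_right (r : ℤ)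
          have e3 : h t + (g t : ℤ) * r = (r : ℤ) * g t + h t := by ring
          rwa [e3] at this
      have h6 : 4 * (h t).natAbs ≤ z := by
        have h7 : 4 * ((h t).natAbs : ℝ) ≤ z := by
          calc 4 * ((h t).natAbs : ℝ) ≤ 4 * Real.exp (L / 64) := by
                have := hhe t ht
                gcongr
            _ ≤ Real.exp (63/64 * L) * Real.exp (L / 64) := by
                have := hexp2 (63/64) (by norm_num)
                gcongr
                linarith
            _ = z := by rw [← Real.exp_add, ← hzexp]; congr 1; ring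
        exact_mod_cast h7
      have h7 := first_form hK q₁ (by omega) hpage P r (g t) J₁ J₂ (h t) hP0 hr hg1 h3 h4 h6 h5 (h4J t ht) hJ₂K
      refine le_trans ?_ h7
      apply mul_le_mul_of_nonneg_left _ (by positivity)
      apply div_le_div_of_nonneg_right _ hP0r.le
      exact W_le_GG hQp hPg (Dvd.intro _ rfl)
    refine le_trans (le_of_eq ?_) (sum_le_sum h2)
    rw [sum_const, nsmul_eq_mul, hX, ← hn]
    field_simp
  -- the end
  have hsub : Win ⊆ (Ioc J₁ (z ^ (K + 1))).filter (fun j => j % P = r) := by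
    intro j hj
    rw [hWin, mem_filter, mem_Ioc] at hj
    rw [mem_filter, mem_Ioc]
    exact ⟨⟨hj.1.1, hj.1.2.trans hJ₂z⟩, hj.2⟩
  rcases hX0.eq_or_lt with hXz | hXpos
  · rw [← hXz]
    simp only [zero_div, mul_zero]
    exact sum_nonneg fun j _ => by positivity
  have hth := threshold Win (fun j => 1 / (j : ℝ)) F (fun j _ => by positivity) (fun j _ => Nat.cast_nonneg _)
    (c / 2 * (L / P) * X) (C₄ * (X + X ^ 2) * (4 * K * (L / P))) (12 * K * (L / P)) (c / (48 * K) * X) (by positivity)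
    hS0 hS1 hS2 (le_of_eq (by field_simp; ring)) (by positivity)
  have hfin : c ^ 2 / (64 * K * C₄) * (L / P) * (X / (1 + X)) ≤ ∑ j ∈ Win.filter (fun j => c / (48 * K) * X ≤ F j), 1 / (j : ℝ) := by
    have hS2pos : 0 < C₄ * (X + X ^ 2) * (4 * K * (L / P)) := by positivity
    have h1 : c ^ 2 / (64 * K * C₄) * (L / P) * (X / (1 + X)) =
        ((c / 2 * (L / P) * X) / 2) ^ 2 / (C₄ * (X + X ^ 2) * (4 * K * (L / P))) := by
      field_simp
      ring
    rw [h1, div_le_iff₀ hS2pos]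
    exact hth
  refine hfin.trans ?_
  apply sum_le_sum_of_subset_of_nonneg
  · intro j hj
    rw [mem_filter] at hj
    rw [mem_filter]
    exact ⟨hsub hj.1, hj.2⟩
  · intro j _ _
    positivity

/-- one class -/
theorem one_class (K : ℕ) (hK : 1 ≤ K) (c : ℝ) (hc : 0 < c) : ∃ κ₀ κ₁ : ℝ, 0 < κ₀ ∧ 0 < κ₁ ∧ ∀ z : ℕ, 640 ≤ Real.log z →
    16 ≤ z → ∀ q₁ r₁ : ℕ, r₁.Prime →
    (∀ q b : ℕ, 0 < q → q ^ 16 ≤ z → ¬ q₁ ∣ q → b.Coprime q →
      c / (q.totient : ℝ) ≤ ∑ p ∈ (Ioc z (z ^ K)).filter (fun p => p.Prime ∧ p ≡ b [MOD q]), (1 : ℝ) / p) →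
    ∀ (T : Finset ℕ) (g : ℕ → ℕ) (h : ℕ → ℤ),
    (∀ t ∈ T, 1 ≤ g t ∧ g t ^ 64 ≤ z ∧ (h t).natAbs ^ 64 ≤ z ∧ IsCoprime (g t : ℤ) (h t) ∧
      ¬ q₁ ∣ PQ (QQ ⌊Real.log z / 64⌋₊ r₁) * g t) →
    (∀ s ∈ T, ∀ t ∈ T, s ≠ t → (g s : ℤ) * h t ≠ g t * h s) →
    ∀ (Q : Finset ℕ), Q = QQ ⌊Real.log z / 64⌋₊ r₁ → ∀ r < PQ Q, (∀ t ∈ T, ∀ p ∈ Q, ¬ (p : ℤ) ∣ (r : ℤ) * g t + h t) →
    κ₁ * (Real.log z / PQ Q) * ((T.card / (WQ Q * Real.log z)) / (1 + T.card / (WQ Q * Real.log z))) ≤
      ∑ j ∈ ((Ioc (Nat.sqrt z) (z ^ (K + 1))).filter (fun j => j % PQ Q = r)).filter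
        (fun j => κ₀ * (T.card / (WQ Q * Real.log z)) ≤ (cnt T g h j : ℝ)), 1 / (j : ℝ) := by
  obtain ⟨κ₀, κ₁, h0, h1, h⟩ := one_class_nu 64 le_rfl K hK c hc
  refine ⟨κ₀, κ₁, h0, h1, fun z hz => h z (by push_cast; linarith)⟩

end Pool.Agent.Helper24K9.LI
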