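import Mathlib
import Pool.Agent.Y353.PS.Page
import Pool.Agent.Helper24K9.LI.Ma

set_option autoImplicit false

/-! A theorem of the type of Linnik for the primes in arbitrary families of linear forms. -/

open Finset Filter Topology

namespace Pool.Agent.Helper24K9.LI

open Pool.Agent.Erdos456 Pool.Agent.Erdos456.Mert Pool.Agent.W218.HF

/-- the number of the `t ∈ T` for which `g t * j + h t` has no prime factor `≤ y` -/
noncomputable def uns (T : Finset ℕ) (g : ℕ → ℕ) (h : ℕ → ℤ) (y j : ℕ) : ℕ :=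
  (T.filter (fun t => ∀ p : ℕ, p ≤ y → p.Prime → ¬ (p : ℤ) ∣ (g t : ℤ) * j + h t)).card

/-- large numbers have large prime powers as factors -/
lemma exists_prime_pow (G : ℕ) : ∃ N : ℕ, ∀ q : ℕ, N < q → ∃ r a : ℕ, r.Prime ∧ r ^ a ∣ q ∧ G < r ^ a := by
  refine ⟨(G + 1) ^ (G + 1), fun q hq => ?_⟩
  by_contra hcon
  push Not at hcon
  have hq0 : q ≠ 0 := by omega
  have h1 : ∀ p ∈ q.primeFactors, p ^ q.factorization p ≤ G := by
    intro p hp
    exact hcon p (q.factorization p) (Nat.prime_of_mem_primeFactors hp) (Nat.ordProj_dvd q p)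
  have h2 : q.primeFactors ⊆ range (G + 1) := by
    intro p hp
    rw [mem_range]
    have h3 := h1 p hp
    have h4 : 1 ≤ q.factorization p := by
      have := Nat.support_factorization q
      rw [← this] at hp
      exact Nat.one_le_iff_ne_zero.2 (Finsupp.mem_support_iff.1 hp)
    have h5 : p ≤ p ^ q.factorization p := Nat.le_self_pow (by omega) p
    omega
  have h3 : q ≤ G ^ q.primeFactors.card := by
    conv_lhs => rw [← Nat.factorization_prod_pow_eq_self hq0]
    rw [Nat.prod_factorization_eq_prod_primeFactors]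
    exact prod_le_pow_card _ _ _ h1
  have h4 : q.primeFactors.card ≤ G + 1 := by
    have := card_le_card h2
    rwa [card_range] at this
  have h5 : G ^ q.primeFactors.card ≤ (G + 1) ^ (G + 1) :=
    (Nat.pow_le_pow_left (by omega) _).trans (Nat.pow_le_pow_right (by omega) h4)
  omega

/-- **A theorem of the type of Linnik** for the primes in a family of linear forms `g t * j + h t` for which the greatest
common divisors of the `g t` are bounded. -/
theorem linnik_forms_gcd : ∃ K : ℕ, 1 ≤ K ∧ ∃ κ : ℝ, 0 < κ ∧ ∀ G : ℕ, ∃ z₀ : ℕ, ∀ z : ℕ, z₀ ≤ z →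
    ∀ (T : Finset ℕ) (g : ℕ → ℕ) (h : ℕ → ℤ), 2 ≤ T.card →
    (∀ t ∈ T, 1 ≤ g t ∧ g t ^ 64 ≤ z ∧ (h t).natAbs ^ 64 ≤ z ∧ IsCoprime (g t : ℤ) (h t)) →
    (∀ s ∈ T, ∀ t ∈ T, s ≠ t → (g s).gcd (g t) ≤ G ∧ (g s : ℤ) * h t ≠ g t * h s) →
    κ * min (T.card : ℝ) (Real.log z / Real.log (Real.log z)) ≤
      ∑ j ∈ (Ioc (Nat.sqrt z) (z ^ K)).filter
        (fun j => 1 ≤ cnt T g h j ∧ κ * (T.card / Real.log z) ≤ (cnt T g h j : ℝ) ∧
          κ * (uns T g h ⌊Real.log z / 64⌋₊ j / Wz ⌊Real.log z / 64⌋₊ / Real.log z) ≤ (cnt T g h j : ℝ)), 1 / (j : ℝ) := by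
  classical
  obtain ⟨K, c, hK, hc, hpage⟩ := Pool.Agent.Y353.PS.page
  obtain ⟨z₁, hz₁⟩ := hpage 1
  obtain ⟨κ₀, κ₁, hκ₀, hκ₁, hone⟩ := one_class K hK c hc
  obtain ⟨c₃, hc₃, hWl⟩ := Wz_lower
  obtain ⟨z₂, hz₂⟩ := eventually_atTop.1 ev_z
  set κ : ℝ := min (κ₀ / 4) (min (κ₁ / 8) (κ₁ * c₃ / 8)) with hκ
  have hκ0 : 0 < κ := by
    apply lt_min (by positivity) (lt_min (by positivity) (by positivity))
  refine ⟨K + 1, by omega, κ, hκ0, fun G => ?_⟩
  obtain ⟨N, hN⟩ := exists_prime_pow G
  have hlt : Tendsto (fun n : ℕ => Real.log n) atTop atTop := Real.tendsto_log_atTop.comp tendsto_natCast_atTop_atTop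
  obtain ⟨z₃, hz₃⟩ := eventually_atTop.1 (hlt.eventually_ge_atTop (N : ℝ))
  refine ⟨max z₃ (max z₁ z₂), fun z hz T g h hT2 hT hTd => ?_⟩
  obtain ⟨hL, z16⟩ := hz₂ z (((le_max_right _ _).trans (le_max_right _ _)).trans hz)
  obtain ⟨q₁, hq₁, hq₁'⟩ := hz₁ z (((le_max_left _ _).trans (le_max_right _ _)).trans hz)
  have hLN : (N : ℝ) ≤ Real.log z := hz₃ z ((le_max_left _ _).trans hz)
  set L : ℝ := Real.log z with hLd
  have hL0 : 0 < L := by linarith
  have hNq : N < q₁ := by
    rw [pow_one] at hq₁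
    exact_mod_cast lt_of_le_of_lt hLN hq₁
  obtain ⟨r₁, a₁, hr₁, hρq, hρG⟩ := hN q₁ hNq
  set ρ : ℕ := r₁ ^ a₁ with hρ
  set y : ℕ := ⌊L / 64⌋₊ with hy
  have hyle : (y : ℝ) ≤ L / 64 := Nat.floor_le (by positivity)
  have hyge : L / 64 - 1 < y := by
    have := Nat.lt_floor_add_one (L / 64)
    rw [← hy] at this
    linarith
  have hy3 : 3 ≤ y := by
    have : (3:ℝ) ≤ y := by linarith
    exact_mod_cast this
  set Q : Finset ℕ := QQ y r₁ with hQ
  have hQp : ∀ p ∈ Q, p.Prime := by rw [hQ]; exact QQ_prime _ _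
  set P : ℕ := PQ Q with hP
  have hP0 : 0 < P := PQ_pos hQp
  have hP0r : (0:ℝ) < P := by exact_mod_cast hP0
  set W : ℝ := WQ Q with hW
  have hW0 : 0 < W := WQ_pos hQp
  have hlogL : 1 ≤ Real.log L := by
    rw [Real.le_log_iff_exp_le hL0]
    have := Real.exp_one_lt_d9
    linarith
  have hWl' : c₃ / Real.log L ≤ W := by
    have h1 := hWl y hy3
    have h2 : Wz y ≤ W := WQ_QQ_ge y r₁
    have hy1 : (1:ℝ) < y := by
      have : (3:ℝ) ≤ y := by exact_mod_cast hy3
      linarith
    have h3 : Real.log y ≤ Real.log L := Real.log_le_log (by linarith) (by linarith)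
    have h4 : 0 < Real.log y := Real.log_pos hy1
    calc c₃ / Real.log L ≤ c₃ / Real.log y := div_le_div_of_nonneg_left hc₃.le h4 h3
      _ ≤ _ := h1.trans h2
  -- `T'`
  set T' : Finset ℕ := T.filter (fun t => ¬ ρ ∣ g t) with hT'
  have hr₁c : (T.filter (fun t => ρ ∣ g t)).card ≤ 1 := by
    rw [card_le_one]
    intro s hs t ht
    rw [mem_filter] at hs ht
    by_contra hst
    have h1 := (hTd s hs.1 t ht.1 hst).1
    have h2 : ρ ∣ (g s).gcd (g t) := Nat.dvd_gcd hs.2 ht.2
    have h3 : 0 < (g s).gcd (g t) := Nat.gcd_pos_of_pos_left _ (hT s hs.1).1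
    have h4 := Nat.le_of_dvd h3 h2
    omega
  have hTT' : T.card ≤ 2 * T'.card := by
    have h1 := card_filter_add_card_filter_not (s := T) (fun t => ρ ∣ g t)
    rw [← hT'] at h1
    omega
  have hT0 : 0 < T.card := by omega
  have hT'0 : 0 < T'.card := by omega
  set n : ℝ := (T.card : ℝ) with hn
  set n' : ℝ := (T'.card : ℝ) with hn'
  have hn0 : 0 < n := by rw [hn]; exact_mod_cast hT0
  have hn'0 : 0 < n' := by rw [hn']; exact_mod_cast hT'0
  have hnn' : n ≤ 2 * n' := by rw [hn, hn']; exact_mod_cast hTT'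
  -- the classes
  set Tr : ℕ → Finset ℕ := fun r => T'.filter (fun t => ∀ p ∈ Q, ¬ (p : ℤ) ∣ (r : ℤ) * g t + h t) with hTrd
  set X : ℕ → ℝ := fun r => ((Tr r).card : ℝ) / (W * L) with hX
  set lam : ℝ := n' / L with hlam
  have hlam0 : 0 < lam := by positivity
  have hX0 : ∀ r, 0 ≤ X r := fun r => by positivity
  have hXle : ∀ r, X r ≤ lam / W := by
    intro r
    have h1 : ((Tr r).card : ℝ) ≤ n' := by
      have h2 : (Tr r).card ≤ T'.card := card_le_card (filter_subset _ _)
      rw [hn']; exact_mod_cast h2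
    calc X r ≤ n' / (W * L) := by simp only [hX]; gcongr
      _ = lam / W := by rw [hlam]; field_simp
  have hXsum : P * lam ≤ ∑ r ∈ range P, X r := by
    have h1 : ∑ r ∈ range P, X r = (1 / (W * L)) * ∑ t ∈ T',
        (((range P).filter (fun r : ℕ => ∀ p ∈ Q, ¬ (p : ℤ) ∣ (r : ℤ) * g t + h t)).card : ℝ) := by
      simp only [hX, hTrd, card_filter]
      push_cast
      simp only [div_eq_mul_inv, one_mul]
      rw [← sum_mul, sum_comm, mul_comm]
    rw [h1]
    have h2 : (n' * (P * W)) ≤ ∑ t ∈ T',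
        (((range P).filter (fun r : ℕ => ∀ p ∈ Q, ¬ (p : ℤ) ∣ (r : ℤ) * g t + h t)).card : ℝ) := by
      have h3 := sum_le_sum (s := T') fun t ht => class_count Q hQp (g t : ℤ) (h t) (hT t (mem_filter.1 ht).1).2.2.2
      rw [sum_const, nsmul_eq_mul] at h3
      exact h3
    calc (P:ℝ) * lam = (1 / (W * L)) * (n' * (P * W)) := by rw [hlam]; field_simp
      _ ≤ _ := mul_le_mul_of_nonneg_left h2 (by positivity)
  set R := (range P).filter (fun r => lam / 2 ≤ X r) with hR
  have hRsum : P * lam / 2 ≤ ∑ r ∈ R, X r := by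
    have h1 := sum_filter_add_sum_filter_not (range P) (fun r => lam / 2 ≤ X r) X
    have h2 : ∑ r ∈ (range P).filter (fun r => ¬ lam / 2 ≤ X r), X r ≤ P * (lam / 2) := by
      refine (sum_le_sum (g := fun _ => lam / 2) ?_).trans ?_
      · intro r hr
        rw [mem_filter, not_le] at hr
        exact hr.2.le
      · rw [sum_const, nsmul_eq_mul]
        apply mul_le_mul_of_nonneg_right _ (by positivity)
        have := card_le_card (filter_subset (fun r => ¬ lam / 2 ≤ X r) (range P))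
        rw [card_range] at this
        exact_mod_cast this
    rw [← hR] at h1
    linarith
  -- one class
  set 𝓔 := (Ioc (Nat.sqrt z) (z ^ (K + 1))).filter
        (fun j => 1 ≤ cnt T g h j ∧ κ * (n / L) ≤ (cnt T g h j : ℝ) ∧
          κ * (uns T g h y j / Wz y / L) ≤ (cnt T g h j : ℝ)) with h𝓔
  have hcls : ∀ r ∈ R, κ₁ * (L / P) * (X r / (1 + lam / W)) ≤
      ∑ j ∈ 𝓔.filter (fun j => j % P = r), 1 / (j : ℝ) := by
    intro r hr
    rw [hR, mem_filter, mem_range] at hr
    have h1 := hone z hL z16 q₁ r₁ hr₁ hq₁' (Tr r) g h (by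
      intro t ht
      have h2 := (mem_filter.1 ht).1
      rw [hT', mem_filter] at h2
      obtain ⟨h3, h4, h5, h6⟩ := hT t h2.1
      refine ⟨h3, h4, h5, h6, fun h7 => h2.2 ?_⟩
      have h8 : ρ ∣ PQ (QQ ⌊Real.log z / 64⌋₊ r₁) * g t := hρq.trans h7
      have h9 : Nat.Coprime ρ (PQ (QQ ⌊Real.log z / 64⌋₊ r₁)) :=
        Nat.Coprime.pow_left _ ((hr₁.coprime_iff_not_dvd).2 (not_dvd_PQ hr₁))
      exact h9.dvd_of_dvd_mul_left h8) (by
      intro s hs t ht hst
      have h2 := (mem_filter.1 hs).1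
      have h3 := (mem_filter.1 ht).1
      rw [hT', mem_filter] at h2 h3
      exact (hTd s h2.1 t h3.1 hst).2) Q rfl r hr.1 (by
      intro t ht p hp
      exact (mem_filter.1 ht).2 p hp)
    have h2 : κ₁ * (L / P) * (X r / (1 + lam / W)) ≤ κ₁ * (L / P) * (X r / (1 + X r)) := by
      apply mul_le_mul_of_nonneg_left _ (by positivity)
      apply div_le_div_of_nonneg_left (hX0 r) (by have := hX0 r; linarith)
      have := hXle r
      linarith
    refine h2.trans (h1.trans ?_)
    apply sum_le_sum_of_subset_of_nonneg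
    · intro j hj
      rw [mem_filter, mem_filter] at hj
      obtain ⟨⟨hj1, hj2⟩, hj3⟩ := hj
      have h3 : ((cnt (Tr r) g h j : ℕ) : ℝ) ≤ cnt T g h j := by
        have : cnt (Tr r) g h j ≤ cnt T g h j := by
          unfold cnt
          apply card_le_card
          apply filter_subset_filter
          exact (filter_subset _ _).trans (filter_subset _ _)
        exact_mod_cast this
      have h4 : κ₀ * (lam / 2) ≤ cnt T g h j := by
        refine le_trans ?_ (hj3.trans h3)
        exact mul_le_mul_of_nonneg_left hr.2 hκ₀.le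
      rw [mem_filter, h𝓔, mem_filter]
      refine ⟨⟨hj1, ?_, ?_, ?_⟩, hj2⟩
      · have h5 : (0:ℝ) < cnt T g h j := lt_of_lt_of_le (by positivity) h4
        exact_mod_cast h5
      · refine le_trans ?_ h4
        have h5 : n / L ≤ 2 * lam := by
          rw [hlam, ← mul_div_assoc]
          gcongr
        calc κ * (n / L) ≤ (κ₀ / 4) * (2 * lam) := by
              apply mul_le_mul (min_le_left _ _) h5 (by positivity) (by positivity)
          _ = _ := by ring
      · refine le_trans ?_ (hj3.trans h3)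
        have hTr1 : 1 ≤ (Tr r).card := by
          have h5 : 0 < X r := lt_of_lt_of_le (by positivity) hr.2
          by_contra h6
          have h7 : (Tr r).card = 0 := by omega
          simp only [hX] at h5
          rw [h7] at h5
          simp at h5
        have h5 : uns T g h y j ≤ (Tr r).card + 1 := by
          have h6 : T.filter (fun t => ∀ p : ℕ, p ≤ y → p.Prime → ¬ (p : ℤ) ∣ (g t : ℤ) * j + h t) ⊆
              Tr r ∪ T.filter (fun t => ρ ∣ g t) := by
            intro t ht
            rw [mem_filter] at ht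
            rw [mem_union]
            by_cases h7 : ρ ∣ g t
            · right
              rw [mem_filter]
              exact ⟨ht.1, h7⟩
            · left
              simp only [hTrd]
              rw [mem_filter, hT', mem_filter]
              refine ⟨⟨ht.1, h7⟩, fun p hp hdv => ht.2 p ?_ (hQp p hp) ?_⟩
              · rw [hQ] at hp
                exact QQ_le _ _ p hp
              · have h8 : (p : ℤ) ∣ (P : ℤ) := by
                  have : p ∣ P := by rw [hP]; exact dvd_prod_of_mem _ hp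
                  exact_mod_cast this
                have h9 : (j : ℤ) = r + P * (j / P : ℕ) := by
                  have := Nat.mod_add_div j P
                  rw [hj2] at this
                  exact_mod_cast this.symm
                have h10 : (g t : ℤ) * j + h t = ((r : ℤ) * g t + h t) + P * ((j / P : ℕ) * g t) := by
                  rw [h9]; ring
                rw [h10]
                exact dvd_add hdv (h8.mul_right _)
          unfold uns
          refine (card_le_card h6).trans ((card_union_le _ _).trans ?_)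
          omega
        have h6 : (uns T g h y j : ℝ) ≤ 2 * (Tr r).card := by
          have : uns T g h y j ≤ 2 * (Tr r).card := by omega
          exact_mod_cast this
        have hWz0 : 0 < Wz y := Wz_pos y
        have hWWz : W ≤ 2 * Wz y := by rw [hW, hQ]; exact WQ_QQ_le y r₁ hr₁
        have h7 : (uns T g h y j : ℝ) / Wz y / L ≤ 4 * X r := by
          rw [div_div]
          calc (uns T g h y j : ℝ) / (Wz y * L) ≤ (2 * (Tr r).card) / ((W / 2) * L) := by
                apply div_le_div₀ (by positivity) h6 (by positivity)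
                apply mul_le_mul_of_nonneg_right _ hL0.le
                linarith
            _ = 4 * X r := by simp only [hX]; field_simp; ring
        calc κ * (uns T g h y j / Wz y / L) ≤ (κ₀ / 4) * (4 * X r) := by
              apply mul_le_mul (min_le_left _ _) h7 (by positivity) (by positivity)
          _ = _ := by ring
    · intro j _ _
      positivity
  have hunion : ∑ r ∈ R, ∑ j ∈ 𝓔.filter (fun j => j % P = r), 1 / (j : ℝ) ≤ ∑ j ∈ 𝓔, 1 / (j : ℝ) := by
    have h1 : ∑ j ∈ 𝓔, 1 / (j : ℝ) = ∑ r ∈ range P, ∑ j ∈ 𝓔.filter (fun j => j % P = r), 1 / (j : ℝ) := by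
      rw [sum_fiberwise_of_maps_to]
      intro j _
      rw [mem_range]
      exact Nat.mod_lt _ hP0
    rw [h1]
    apply sum_le_sum_of_subset_of_nonneg (filter_subset _ _)
    intro r _ _
    exact sum_nonneg fun j _ => by positivity
  refine le_trans ?_ ((sum_le_sum hcls).trans hunion)
  have e0 : ∑ r ∈ R, κ₁ * (L / P) * (X r / (1 + lam / W)) = κ₁ * (L / P) * (1 / (1 + lam / W)) * ∑ r ∈ R, X r := by
    rw [mul_sum]
    apply sum_congr rfl
    intro r _
    ring
  rw [e0]
  have h1 : κ₁ * (L / P) * (1 / (1 + lam / W)) * (P * lam / 2) ≤ κ₁ * (L / P) * (1 / (1 + lam / W)) * ∑ r ∈ R, X r :=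
    mul_le_mul_of_nonneg_left hRsum (by positivity)
  refine le_trans ?_ h1
  have h2 : min lam W ≤ 2 * (lam * (1 / (1 + lam / W))) := by
    have e1 : lam * (1 / (1 + lam / W)) = lam * W / (W + lam) := by field_simp
    rw [e1, ← mul_div_assoc, le_div_iff₀ (by positivity)]
    rcases le_total lam W with h | h
    · rw [min_eq_left h]; nlinarith
    · rw [min_eq_right h]; nlinarith
  have h3 : κ₁ * (L / P) * (1 / (1 + lam / W)) * (P * lam / 2) = κ₁ / 2 * L * (lam * (1 / (1 + lam / W))) := by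
    field_simp
  rw [h3]
  have h4 : κ₁ / 4 * (L * min lam W) ≤ κ₁ / 2 * L * (lam * (1 / (1 + lam / W))) := by
    calc κ₁ / 4 * (L * min lam W) ≤ κ₁ / 4 * (L * (2 * (lam * (1 / (1 + lam / W))))) := by gcongr
      _ = _ := by ring
  refine le_trans ?_ h4
  rw [mul_min_of_nonneg _ _ hL0.le]
  have h5 : L * lam = n' := by rw [hlam]; field_simp
  rw [h5]
  have h6 : 0 < L / Real.log L := by positivity
  rcases le_total n' (L * W) with h | h
  · rw [min_eq_left h]
    calc κ * min n (L / Real.log L) ≤ (κ₁ / 8) * n := by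
          apply mul_le_mul _ (min_le_left _ _) (le_min hn0.le h6.le) (by positivity)
          exact (min_le_right _ _).trans (min_le_left _ _)
      _ ≤ (κ₁ / 8) * (2 * n') := by gcongr
      _ = _ := by ring
  · rw [min_eq_right h]
    calc κ * min n (L / Real.log L) ≤ (κ₁ * c₃ / 8) * (L / Real.log L) := by
          apply mul_le_mul _ (min_le_right _ _) (le_min hn0.le h6.le) (by positivity)
          exact (min_le_right _ _).trans (min_le_right _ _)
      _ ≤ (κ₁ * c₃ / 4) * (L / Real.log L) := by gcongr; norm_num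
      _ = κ₁ / 4 * (L * (c₃ / Real.log L)) := by ring
      _ ≤ κ₁ / 4 * (L * W) := by gcongr

/-- **A theorem of the type of Linnik** for the primes in a family of linear forms `g t * j + h t` with pairwise
coprime `g t`. -/
theorem linnik_forms : ∃ K : ℕ, 1 ≤ K ∧ ∃ κ : ℝ, 0 < κ ∧ ∃ z₀ : ℕ, ∀ z : ℕ, z₀ ≤ z →
    ∀ (T : Finset ℕ) (g : ℕ → ℕ) (h : ℕ → ℤ), 2 ≤ T.card →
    (∀ t ∈ T, 1 ≤ g t ∧ g t ^ 64 ≤ z ∧ (h t).natAbs ^ 64 ≤ z ∧ IsCoprime (g t : ℤ) (h t)) →
    (∀ s ∈ T, ∀ t ∈ T, s ≠ t → (g s).Coprime (g t) ∧ (g s : ℤ) * h t ≠ g t * h s) →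
    κ * min (T.card : ℝ) (Real.log z / Real.log (Real.log z)) ≤
      ∑ j ∈ (Ioc (Nat.sqrt z) (z ^ K)).filter
        (fun j => 1 ≤ cnt T g h j ∧ κ * (T.card / Real.log z) ≤ (cnt T g h j : ℝ) ∧
          κ * (uns T g h ⌊Real.log z / 64⌋₊ j / Wz ⌊Real.log z / 64⌋₊ / Real.log z) ≤ (cnt T g h j : ℝ)), 1 / (j : ℝ) := by
  obtain ⟨K, hK, κ, hκ, h⟩ := linnik_forms_gcd
  obtain ⟨z₀, hz₀⟩ := h 1
  refine ⟨K, hK, κ, hκ, z₀, fun z hz T g h hT2 hT hTd => hz₀ z hz T g h hT2 hT fun s hs t ht hst => ?_⟩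
  obtain ⟨h1, h2⟩ := hTd s hs t ht hst
  exact ⟨(Nat.coprime_iff_gcd_eq_one.1 h1).le, h2⟩

end Pool.Agent.Helper24K9.LI
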