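import Mathlib
import Pool.Agent.Helper24K9.LI.Li

set_option autoImplicit false

/-! A theorem of the type of Linnik for the primes in families of linear forms which are well distributed in the classes
modulo the product of the small primes: a positive proportion. -/

open Finset Filter Topology

namespace Pool.Agent.Helper24K9.LI

open Pool.Agent.Erdos456 Pool.Agent.Erdos456.Mert Pool.Agent.W218.HF

/-- **Positive proportion.** Here the family may depend on the prime power `r₁ ^ a₁` which is to be avoided. -/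
theorem linnik_pos_delta (ν : ℕ) (hν : 64 ≤ ν) : ∃ K : ℕ, 1 ≤ K ∧ ∀ E δ : ℝ, 1 ≤ E → 0 < δ → ∃ κ : ℝ, 0 < κ ∧ ∀ M : ℕ, ∃ z₀ : ℕ,
    ∀ z : ℕ, z₀ ≤ z → ∃ r₁ a₁ : ℕ, r₁.Prime ∧ M < r₁ ^ a₁ ∧ ∀ (T : Finset ℕ) (g : ℕ → ℕ) (h : ℕ → ℤ),
    (∀ t ∈ T, 1 ≤ g t ∧ g t ^ 64 ≤ z ∧ (h t).natAbs ^ 64 ≤ z ∧ IsCoprime (g t : ℤ) (h t) ∧ ¬ r₁ ^ a₁ ∣ g t) →
    (∀ s ∈ T, ∀ t ∈ T, s ≠ t → (g s : ℤ) * h t ≠ g t * h s) → ∀ Q : Finset ℕ, Q = QQ ⌊Real.log z / ν⌋₊ r₁ →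
    ∑ r ∈ range (PQ Q), ((T.filter (fun t => ∀ p ∈ Q, ¬ (p : ℤ) ∣ (r : ℤ) * g t + h t)).card : ℝ) ^ 2 ≤
      E * (PQ Q * (WQ Q * T.card) ^ 2) →
    δ * Real.log z ≤ T.card →
    κ * Real.log z ≤ ∑ j ∈ (Ioc (Nat.sqrt z) (z ^ K)).filter
        (fun j => κ * (T.card / Real.log z) ≤ (cnt T g h j : ℝ)), 1 / (j : ℝ) := by
  classical
  obtain ⟨K, c, hK, hc, hpage⟩ := Pool.Agent.Y353.PS.page
  obtain ⟨z₁, hz₁⟩ := hpage 1
  obtain ⟨κ₀, κ₁, hκ₀, hκ₁, hone⟩ := one_class_nu ν hν K hK c hc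
  refine ⟨K + 1, by omega, fun E δ hE hδ => ?_⟩
  have hE0 : 0 < E := by linarith
  set κ : ℝ := min (κ₀ / 2) (κ₁ * (δ / (2 + δ)) / (4 * E)) with hκ
  have hκ0 : 0 < κ := lt_min (by positivity) (by positivity)
  refine ⟨κ, hκ0, fun M => ?_⟩
  obtain ⟨N, hN⟩ := exists_prime_pow M
  have hlt : Tendsto (fun n : ℕ => Real.log n) atTop atTop := Real.tendsto_log_atTop.comp tendsto_natCast_atTop_atTop
  obtain ⟨z₃, hz₃⟩ := eventually_atTop.1 ((hlt.eventually_ge_atTop (N : ℝ)).and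
    ((hlt.eventually_ge_atTop (10 * ν : ℝ)).and (eventually_ge_atTop 16)))
  refine ⟨max z₃ z₁, fun z hz => ?_⟩
  obtain ⟨hLN, hLν, z16⟩ := hz₃ z ((le_max_left _ _).trans hz)
  obtain ⟨q₁, hq₁, hq₁'⟩ := hz₁ z ((le_max_right _ _).trans hz)
  have hNq : N < q₁ := by
    rw [pow_one] at hq₁
    exact_mod_cast lt_of_le_of_lt hLN hq₁
  obtain ⟨r₁, a₁, hr₁, hρq, hρM⟩ := hN q₁ hNq
  refine ⟨r₁, a₁, hr₁, hρM, fun T g h hT hTd Q hQ hsq hTL => ?_⟩
  set L : ℝ := Real.log z with hLd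
  have hν64 : (64:ℝ) ≤ ν := by exact_mod_cast hν
  have hL0 : 0 < L := by linarith
  have hQp : ∀ p ∈ Q, p.Prime := by rw [hQ]; exact QQ_prime _ _
  set P : ℕ := PQ Q with hP
  have hP0 : 0 < P := PQ_pos hQp
  have hP0r : (0:ℝ) < P := by exact_mod_cast hP0
  set W : ℝ := WQ Q with hW
  have hW0 : 0 < W := WQ_pos hQp
  set n : ℝ := (T.card : ℝ) with hn
  have hn0 : 0 < n := by
    have : 0 < δ * L := by positivity
    linarith
  -- the classes
  set Tr : ℕ → Finset ℕ := fun r => T.filter (fun t => ∀ p ∈ Q, ¬ (p : ℤ) ∣ (r : ℤ) * g t + h t) with hTrd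
  set X : ℕ → ℝ := fun r => ((Tr r).card : ℝ) / (W * L) with hX
  set lam : ℝ := n / L with hlam
  have hlam1 : δ ≤ lam := by
    rw [hlam, le_div_iff₀ hL0]
    exact hTL
  have hlam0 : 0 < lam := by linarith
  have hX0 : ∀ r, 0 ≤ X r := fun r => by positivity
  have hXsum : P * lam ≤ ∑ r ∈ range P, X r := by
    have h1 : ∑ r ∈ range P, X r = (1 / (W * L)) * ∑ t ∈ T,
        (((range P).filter (fun r : ℕ => ∀ p ∈ Q, ¬ (p : ℤ) ∣ (r : ℤ) * g t + h t)).card : ℝ) := by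
      simp only [hX, hTrd, card_filter]
      push_cast
      simp only [div_eq_mul_inv, one_mul]
      rw [← sum_mul, sum_comm, mul_comm]
    rw [h1]
    have h2 : (n * (P * W)) ≤ ∑ t ∈ T,
        (((range P).filter (fun r : ℕ => ∀ p ∈ Q, ¬ (p : ℤ) ∣ (r : ℤ) * g t + h t)).card : ℝ) := by
      have h3 := sum_le_sum (s := T) fun t ht => class_count Q hQp (g t : ℤ) (h t) (hT t ht).2.2.2.1
      rw [sum_const, nsmul_eq_mul] at h3
      exact h3
    calc (P:ℝ) * lam = (1 / (W * L)) * (n * (P * W)) := by rw [hlam]; field_simp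
      _ ≤ _ := mul_le_mul_of_nonneg_left h2 (by positivity)
  have hXsq : ∑ r ∈ range P, X r ^ 2 ≤ E * (P * lam ^ 2) := by
    have h1 : ∑ r ∈ range P, X r ^ 2 = (1 / (W * L) ^ 2) * ∑ r ∈ range P, ((Tr r).card : ℝ) ^ 2 := by
      rw [mul_sum]
      apply sum_congr rfl
      intro r _
      simp only [hX]
      rw [div_pow]
      ring
    rw [h1]
    calc (1 / (W * L) ^ 2) * ∑ r ∈ range P, ((Tr r).card : ℝ) ^ 2 ≤ (1 / (W * L) ^ 2) * (E * (P * (W * n) ^ 2)) :=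
          mul_le_mul_of_nonneg_left hsq (by positivity)
      _ = E * (P * lam ^ 2) := by rw [hlam]; field_simp
  set R := (range P).filter (fun r => lam / 2 ≤ X r) with hR
  have hRsum : P * lam / 2 ≤ ∑ r ∈ R, X r := by
    have h1 := sum_filter_add_sum_filter_not (range P) (fun r => lam / 2 ≤ X r) X
    have h2 : ∑ r ∈ (range P).filter (fun r => ¬ lam / 2 ≤ X r), X r ≤ P * (lam / 2) := by
      refine (sum_le_sum (g := fun _ => lam / 2) ?_).trans ?_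
      · intro r hr
        rw [mem_filter, not_le] at hr
        exact hr.2.le
      · rw [sum_const, nsmul_eq_mul]
        apply mul_le_mul_of_nonneg_right _ (by positivity)
        have := card_le_card (filter_subset (fun r => ¬ lam / 2 ≤ X r) (range P))
        rw [card_range] at this
        exact_mod_cast this
    rw [← hR] at h1
    linarith
  have hRcard : (P : ℝ) / (4 * E) ≤ R.card := by
    have h1 : (∑ r ∈ R, X r) ^ 2 ≤ R.card * ∑ r ∈ R, X r ^ 2 := sq_sum_le_card_mul_sum_sq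
    have h2 : ∑ r ∈ R, X r ^ 2 ≤ E * (P * lam ^ 2) :=
      (sum_le_sum_of_subset_of_nonneg (filter_subset _ _) fun r _ _ => sq_nonneg _).trans hXsq
    have h3 : (P * lam / 2) ^ 2 ≤ R.card * (E * (P * lam ^ 2)) := by
      calc (P * lam / 2) ^ 2 ≤ (∑ r ∈ R, X r) ^ 2 := by gcongr
        _ ≤ R.card * ∑ r ∈ R, X r ^ 2 := h1
        _ ≤ _ := by gcongr
    rw [div_le_iff₀ (by positivity)]
    have h4 : (P * lam ^ 2) * P ≤ (P * lam ^ 2) * (R.card * (4 * E)) := by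
      calc (P * lam ^ 2) * P = 4 * (P * lam / 2) ^ 2 := by ring
        _ ≤ 4 * (R.card * (E * (P * lam ^ 2))) := by gcongr
        _ = _ := by ring
    exact le_of_mul_le_mul_left h4 (by positivity)
  -- one class
  set 𝓔 := (Ioc (Nat.sqrt z) (z ^ (K + 1))).filter
        (fun j => κ * (n / L) ≤ (cnt T g h j : ℝ)) with h𝓔
  have hcls : ∀ r ∈ R, κ₁ * (L / P) * (δ / (2 + δ)) ≤ ∑ j ∈ 𝓔.filter (fun j => j % P = r), 1 / (j : ℝ) := by
    intro r hr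
    rw [hR, mem_filter, mem_range] at hr
    have h1 := hone z hLν z16 q₁ r₁ hr₁ hq₁' (Tr r) g h (by
      intro t ht
      have h2 := (mem_filter.1 ht).1
      obtain ⟨h3, h4, h5, h6, h6'⟩ := hT t h2
      refine ⟨h3, h4, h5, h6, fun h7 => h6' ?_⟩
      have h8 : r₁ ^ a₁ ∣ PQ (QQ ⌊Real.log z / ν⌋₊ r₁) * g t := hρq.trans h7
      have h9 : Nat.Coprime (r₁ ^ a₁) (PQ (QQ ⌊Real.log z / ν⌋₊ r₁)) :=
        Nat.Coprime.pow_left _ ((hr₁.coprime_iff_not_dvd).2 (not_dvd_PQ hr₁))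
      exact h9.dvd_of_dvd_mul_left h8) (by
      intro s hs t ht hst
      exact hTd s (mem_filter.1 hs).1 t (mem_filter.1 ht).1 hst) Q hQ r hr.1 (by
      intro t ht p hp
      exact (mem_filter.1 ht).2 p hp)
    have h2 : κ₁ * (L / P) * (δ / (2 + δ)) ≤ κ₁ * (L / P) * (X r / (1 + X r)) := by
      apply mul_le_mul_of_nonneg_left _ (by positivity)
      have := hX0 r
      have := hr.2
      rw [div_le_div_iff₀ (by positivity) (by linarith)]
      nlinarith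
    refine h2.trans (h1.trans ?_)
    apply sum_le_sum_of_subset_of_nonneg
    · intro j hj
      rw [mem_filter, mem_filter] at hj
      obtain ⟨⟨hj1, hj2⟩, hj3⟩ := hj
      have h3 : ((cnt (Tr r) g h j : ℕ) : ℝ) ≤ cnt T g h j := by
        have : cnt (Tr r) g h j ≤ cnt T g h j := by
          unfold cnt
          apply card_le_card
          apply filter_subset_filter
          exact filter_subset _ _
        exact_mod_cast this
      have h4 : κ₀ * (lam / 2) ≤ cnt T g h j := by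
        refine le_trans ?_ (hj3.trans h3)
        exact mul_le_mul_of_nonneg_left hr.2 hκ₀.le
      rw [mem_filter, h𝓔, mem_filter]
      refine ⟨⟨hj1, ?_⟩, hj2⟩
      refine le_trans ?_ h4
      calc κ * (n / L) ≤ (κ₀ / 2) * lam := by
            apply mul_le_mul (min_le_left _ _) le_rfl (by positivity) (by positivity)
        _ = _ := by ring
    · intro j _ _
      positivity
  have hunion : ∑ r ∈ R, ∑ j ∈ 𝓔.filter (fun j => j % P = r), 1 / (j : ℝ) ≤ ∑ j ∈ 𝓔, 1 / (j : ℝ) := by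
    have h1 : ∑ j ∈ 𝓔, 1 / (j : ℝ) = ∑ r ∈ range P, ∑ j ∈ 𝓔.filter (fun j => j % P = r), 1 / (j : ℝ) := by
      rw [sum_fiberwise_of_maps_to]
      intro j _
      rw [mem_range]
      exact Nat.mod_lt _ hP0
    rw [h1]
    apply sum_le_sum_of_subset_of_nonneg (filter_subset _ _)
    intro r _ _
    exact sum_nonneg fun j _ => by positivity
  refine le_trans ?_ ((sum_le_sum hcls).trans hunion)
  rw [sum_const, nsmul_eq_mul]
  calc κ * L ≤ (κ₁ * (δ / (2 + δ)) / (4 * E)) * L := by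
        apply mul_le_mul_of_nonneg_right (min_le_right _ _) hL0.le
    _ = (P / (4 * E)) * (κ₁ * (L / P) * (δ / (2 + δ))) := by field_simp
    _ ≤ _ := mul_le_mul_of_nonneg_right hRcard (by positivity)

/-- **Positive proportion.** Here the family may depend on the prime power `r₁ ^ a₁` which is to be avoided. -/
theorem linnik_pos (ν : ℕ) (hν : 64 ≤ ν) : ∃ K : ℕ, 1 ≤ K ∧ ∀ E : ℝ, 1 ≤ E → ∃ κ : ℝ, 0 < κ ∧ ∀ M : ℕ, ∃ z₀ : ℕ,
    ∀ z : ℕ, z₀ ≤ z → ∃ r₁ a₁ : ℕ, r₁.Prime ∧ M < r₁ ^ a₁ ∧ ∀ (T : Finset ℕ) (g : ℕ → ℕ) (h : ℕ → ℤ),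
    (∀ t ∈ T, 1 ≤ g t ∧ g t ^ 64 ≤ z ∧ (h t).natAbs ^ 64 ≤ z ∧ IsCoprime (g t : ℤ) (h t) ∧ ¬ r₁ ^ a₁ ∣ g t) →
    (∀ s ∈ T, ∀ t ∈ T, s ≠ t → (g s : ℤ) * h t ≠ g t * h s) → ∀ Q : Finset ℕ, Q = QQ ⌊Real.log z / ν⌋₊ r₁ →
    ∑ r ∈ range (PQ Q), ((T.filter (fun t => ∀ p ∈ Q, ¬ (p : ℤ) ∣ (r : ℤ) * g t + h t)).card : ℝ) ^ 2 ≤
      E * (PQ Q * (WQ Q * T.card) ^ 2) →
    Real.log z ≤ T.card →
    κ * Real.log z ≤ ∑ j ∈ (Ioc (Nat.sqrt z) (z ^ K)).filter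
        (fun j => κ * (T.card / Real.log z) ≤ (cnt T g h j : ℝ)), 1 / (j : ℝ) := by
  obtain ⟨K, hK, h⟩ := linnik_pos_delta ν hν
  refine ⟨K, hK, fun E hE => ?_⟩
  obtain ⟨κ, hκ, h⟩ := h E 1 hE one_pos
  refine ⟨κ, hκ, fun M => ?_⟩
  obtain ⟨z₀, h⟩ := h M
  refine ⟨z₀, fun z hz => ?_⟩
  obtain ⟨r₁, a₁, h1, h2, h3⟩ := h z hz
  refine ⟨r₁, a₁, h1, h2, fun T g h hT hTd Q hQ hsq hTL => h3 T g h hT hTd Q hQ hsq (by rw [one_mul]; exact hTL)⟩

end Pool.Agent.Helper24K9.LI
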