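import Mathlib

set_option autoImplicit false

/-! The size of the `n`-th prime. -/

open Finset Filter Topology

namespace Pool.Agent.Helper24K9.LI

/-- the `m`-th prime is at most `m ^ 2` -/
theorem nth_prime_le : ∃ m₀ : ℕ, ∀ m : ℕ, m₀ ≤ m → Nat.nth Nat.Prime m ≤ (m + 1) ^ 2 := by
  have h2 := (isLittleO_log_rpow_atTop (show (0:ℝ) < 1/2 by norm_num)).bound (show (0:ℝ) < 1/20 by norm_num)
  obtain ⟨x₀, hx₀⟩ := eventually_atTop.1 (h2.and (eventually_ge_atTop 2))
  refine ⟨⌈x₀⌉₊, fun m hm => ?_⟩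
  set x : ℕ := Nat.nth Nat.Prime m with hx
  have hmx : m ≤ x := (Nat.nth_strictMono Nat.infinite_setOf_prime).le_apply
  have hx1 : x₀ ≤ (x : ℝ) := (Nat.le_ceil _).trans (by exact_mod_cast hm.trans hmx)
  obtain ⟨h4, h5⟩ := hx₀ x hx1
  have h3 := Chebyshev.pi_ge x
  have hpi : Nat.primeCounting x = m + 1 := by
    have h6 : Nat.primeCounting' x = m := Nat.primeCounting'_nth_eq m
    have hxp : x.Prime := Nat.prime_nth_prime m
    unfold Nat.primeCounting
    unfold Nat.primeCounting' at h6 ⊢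
    rw [Nat.count_succ, h6, if_pos hxp]
  rw [hpi] at h3
  have hx0 : (0:ℝ) < x := by linarith
  have hl0 : 0 < Real.log x := Real.log_pos (by linarith)
  rw [Real.norm_of_nonneg hl0.le, Real.norm_of_nonneg (by positivity), ← Real.sqrt_eq_rpow] at h4
  rw [div_le_iff₀ hl0] at h3
  have hs : Real.sqrt x * Real.sqrt x = x := Real.mul_self_sqrt hx0.le
  have hs0 : 0 < Real.sqrt x := Real.sqrt_pos.2 hx0
  have hs1 : Real.sqrt x ≤ x := by
    rw [Real.sqrt_le_left hx0.le]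
    nlinarith
  have hl2 := Real.log_two_gt_d9
  have h8 : Real.log ((x : ℝ) + 1) ≤ 2 * Real.log x := by
    have e : 2 * Real.log x = Real.log ((x:ℝ) ^ 2) := by rw [Real.log_pow]; norm_num
    rw [e]
    apply Real.log_le_log (by linarith)
    nlinarith
  have h6 : Real.sqrt x ≤ ((m + 1 : ℕ) : ℝ) := by
    have h9 : (1:ℝ) / 20 * x ≤ x * Real.log 2 - Real.log ((x : ℝ) + 1) := by
      have h10 : (x:ℝ) * (6/10) ≤ x * Real.log 2 := mul_le_mul_of_nonneg_left (by linarith) hx0.le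
      linarith
    have h7 : 1 / 20 * (Real.sqrt x * Real.sqrt x) ≤ ((m + 1 : ℕ) : ℝ) * (1 / 20 * Real.sqrt x) := by
      calc 1 / 20 * (Real.sqrt x * Real.sqrt x) = 1 / 20 * x := by rw [hs]
        _ ≤ ((m + 1 : ℕ) : ℝ) * Real.log x := h9.trans h3
        _ ≤ _ := by gcongr
    have h8 : (1 / 20 * Real.sqrt x) * Real.sqrt x ≤ (1 / 20 * Real.sqrt x) * ((m + 1 : ℕ) : ℝ) := by linarith
    exact le_of_mul_le_mul_left h8 (by positivity)
  have h7 : (x : ℝ) ≤ ((m + 1 : ℕ) : ℝ) ^ 2 := by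
    rw [← hs, sq]
    gcongr
  exact_mod_cast h7

end Pool.Agent.Helper24K9.LI
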